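import Pool.Agent.Helper82.Rad.Exists
import Pool.Graph.R_pool_sql_team_seeded_620a6dc7.Helper316_PR.PtLem
import Pool.Graph.R_pool_sql_team_seeded_620a6dc7.Helper316_PR.Dom

/-!
# The main argument
-/

set_option autoImplicit false

namespace Pool.Agent.Helper82.Rad

open WeierstrassCurve Pool.Agent.Y732 Pool.Agent.Helper316_PR

section abs

variable {G : Type} [AddCommGroup G]

/-- orthogonality to the generators of a group -/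
lemma orth_all {F : Type*} [Field F] [CharZero F] {h : G → F}
    (hq : ∀ P Q, h (P + Q) + h (P - Q) = 2 * h P + 2 * h Q) {r : ℕ} {P : Fin r → G} {Q : G}
    (horth : ∀ j, h (Q + P j) = h Q + h (P j)) (n : Fin r → ℤ) (m : ℤ) :
    h (∑ j, n j • P j + m • Q) = h (∑ j, n j • P j) + h (m • Q) := by
  have h1 := pr_comb hq n P (m • Q)
  have h2 : ∀ j, h (P j + m • Q) - h (P j) - h (m • Q) = 0 := by
    intro j
    have h3 : prHom hq (P j) (m • Q) = m * prHom hq (P j) Q := by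
      rw [map_zsmul, zsmul_eq_mul]
    have h4 : h (m • Q + P j) - h (m • Q) - h (P j) = m * (h (Q + P j) - h Q - h (P j)) := h3
    rw [horth j] at h4
    rw [add_comm (P j)]
    linear_combination h4
  have h3 : ∑ j, (n j : F) * (h (P j + m • Q) - h (P j) - h (m • Q)) = 0 :=
    Finset.sum_eq_zero fun j _ => by rw [h2, mul_zero]
  rw [h3] at h1
  linear_combination h1

/-- the height of the points -/
lemma q_point_le {q : G → ℝ} (hq0 : ∀ P, 0 ≤ q P)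
    (hq : ∀ P Q, q (P + Q) + q (P - Q) = 2 * q P + 2 * q Q) {r : ℕ} (P : Fin r → G) (Q : G)
    {T : ℕ} {n : Fin r → ℤ} (hn : n ∈ box r T) {i : ℤ} (hi0 : 0 ≤ i) (hi : i ≤ T) :
    q (∑ j, n j • P j + i • Q) ≤ (2 * 2 ^ r * ∑ j, q (P j) + 2 * q Q) * ((T : ℝ) + 1) ^ 2 := by
  have h1 := q_add_le hq0 hq (∑ j, n j • P j) (i • Q)
  have h2 := q_sum_le hq0 hq Finset.univ fun j => n j • P j
  rw [Finset.card_univ, Fintype.card_fin] at h2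
  have hT0 : (0 : ℝ) ≤ T := Nat.cast_nonneg _
  have h3 : ∑ j, q (n j • P j) ≤ ∑ j, ((T : ℝ) + 1) ^ 2 * q (P j) := by
    refine Finset.sum_le_sum fun j _ => ?_
    rw [quadratic_int hq]
    refine mul_le_mul_of_nonneg_right ?_ (hq0 _)
    have h4 : |((n j : ℤ) : ℝ)| ≤ T := by
      have := mem_box.1 hn j
      exact_mod_cast this
    rw [← sq_abs]
    exact pow_le_pow_left₀ (abs_nonneg _) (by linarith) 2
  have h5 : q (i • Q) ≤ ((T : ℝ) + 1) ^ 2 * q Q := by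
    rw [quadratic_int hq]
    refine mul_le_mul_of_nonneg_right ?_ (hq0 _)
    have h6 : (i : ℝ) ≤ T := by exact_mod_cast hi
    have h7 : (0 : ℝ) ≤ i := by exact_mod_cast hi0
    exact pow_le_pow_left₀ h7 (by linarith) 2
  rw [← Finset.mul_sum] at h3
  have h8 : (2 : ℝ) ^ r * ∑ j, q (n j • P j) ≤ 2 ^ r * (((T : ℝ) + 1) ^ 2 * ∑ j, q (P j)) :=
    mul_le_mul_of_nonneg_left h3 (by positivity)
  calc _ ≤ 2 * q (∑ j, n j • P j) + 2 * q (i • Q) := h1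
    _ ≤ 2 * (2 ^ r * (((T : ℝ) + 1) ^ 2 * ∑ j, q (P j))) + 2 * (((T : ℝ) + 1) ^ 2 * q Q) := by
        linarith
    _ = _ := by ring

/-- many points of the box are not multiples of `Q` -/
lemma card_good_ge {P : Fin 4 → G} (hP : LinearIndependent ℤ P) (Q : G) (T : ℕ)
    (good : (Fin 4 → ℤ) → Prop) [DecidablePred good]
    (hgood : ∀ n, good n ↔ ∀ m : ℤ, ∑ j, n j • P j ≠ m • Q) :
    T ^ 4 ≤ ((box 4 T).filter good).card := by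
  classical
  have h1 := Finset.card_filter_add_card_filter_not (s := box 4 T) good
  rw [card_box] at h1
  have h2 : ((box 4 T).filter fun n => ¬ good n).card ≤ 2 * T + 1 := by
    refine card_bad_le hP Q T _ (Finset.filter_subset _ _) fun n hn => ?_
    have := (Finset.mem_filter.1 hn).2
    rw [hgood] at this
    push Not at this
    exact this
  have h3 : T ^ 4 + (2 * T + 1) ≤ (2 * T + 1) ^ 4 := by
    have : (2 * T + 1) ^ 4 = T ^ 4 + (2 * T + 1) + (15 * T ^ 4 + 32 * T ^ 3 + 24 * T ^ 2 + 6 * T) := by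
      ring
    omega
  omega

end abs

variable {p : ℕ} {A B : ℤ}

/-- the upper bound for the auxiliary function -/
lemma abs_aux_le {q : (EQ A B).Point → ℝ} (hq0 : ∀ P, 0 ≤ q P)
    (hq : ∀ P Q, q (P + Q) + q (P - Q) = 2 * q P + 2 * q Q) {C : ℝ} (hC0 : 0 ≤ C)
    (hCu : ∀ P : (EQ A B).Point, nh P ≤ q P + C) (P : Fin 4 → (EQ A B).Point)
    (Q : (EQ A B).Point) {c₁ s : ℝ} (hs : s = ((2 * (p - 1) : ℕ) : ℝ))
    (hc₁ : c₁ = 2 * 2 ^ 4 * ∑ j, q (P j) + 2 * q Q + C) {S D T : ℕ} (hST : S ≤ T)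
    {n : Fin 4 → ℤ} (hn : n ∈ box 4 T) (κ : Fin S × Fin D × Fin D) :
    |(mon p Q (∑ j, n j • P j) κ : ℝ)| ≤ Real.exp (2 * s * c₁ * D * ((T : ℝ) + 1) ^ 2) := by
  refine (abs_mon_le hCu Q _ κ).trans (Real.exp_le_exp.2 ?_)
  rw [← hs]
  have hs0 : 0 ≤ s := by rw [hs]; exact Nat.cast_nonneg _
  have b1 := κ.1.2
  have b2 := κ.2.2.2
  have q1 := q_point_le hq0 hq P Q hn (i := ((κ.1 : ℕ) : ℤ)) (by positivity) (by omega)
  have q2 := q_point_le hq0 hq P Q hn (i := ((κ.1 : ℕ) : ℤ) + 1) (by positivity) (by omega)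
  have c2 : ((κ.2.2 : ℕ) : ℝ) ≤ D := by exact_mod_cast b2.le
  have c4 : (0 : ℝ) ≤ ((κ.2.2 : ℕ) : ℝ) := Nat.cast_nonneg _
  have hD0 : (0 : ℝ) ≤ D := Nat.cast_nonneg _
  generalize q (∑ j, n j • P j + ((κ.1 : ℕ) : ℤ) • Q) = X₁ at q1 ⊢
  generalize q (∑ j, n j • P j + (((κ.1 : ℕ) : ℤ) + 1) • Q) = X₂ at q2 ⊢
  generalize ((κ.2.2 : ℕ) : ℝ) = d at c2 c4 ⊢
  have hT1 : (1 : ℝ) ≤ ((T : ℝ) + 1) ^ 2 := by
    have : (0 : ℝ) ≤ T := Nat.cast_nonneg _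
    nlinarith
  have hCT : C ≤ C * ((T : ℝ) + 1) ^ 2 := by nlinarith
  obtain ⟨Y, hY⟩ : ∃ Y : ℝ, Y = (2 * 2 ^ 4 * ∑ j, q (P j) + 2 * q Q) * ((T : ℝ) + 1) ^ 2 := ⟨_, rfl⟩
  rw [← hY] at q1 q2
  have e1 : c₁ * ((T : ℝ) + 1) ^ 2 = Y + C * ((T : ℝ) + 1) ^ 2 := by
    rw [hc₁, hY]
    ring
  have e2 : (2 * D - d) * X₁ ≤ (2 * D - d) * Y := mul_le_mul_of_nonneg_left q1 (by linarith)
  have e3 : d * X₂ ≤ d * Y := mul_le_mul_of_nonneg_left q2 c4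
  have e4 : 2 * D * C ≤ 2 * D * (C * ((T : ℝ) + 1) ^ 2) :=
    mul_le_mul_of_nonneg_left hCT (by linarith)
  have e5 : (2 * D - d) * X₁ + d * X₂ + 2 * D * C ≤ 2 * D * (c₁ * ((T : ℝ) + 1) ^ 2) := by
    rw [e1]
    linarith
  calc s * ((2 * D - d) * X₁ + d * X₂ + 2 * D * C) ≤ s * (2 * D * (c₁ * ((T : ℝ) + 1) ^ 2)) :=
        mul_le_mul_of_nonneg_left e5 hs0
    _ = _ := by ring

/-- the numerical contradiction -/
lemma numeric' {s₀ T : ℕ} (hs₀ : 1 ≤ s₀) (hT : s₀ ^ 2 ≤ T) {c₂ : ℝ} (hc₂ : 0 ≤ c₂)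
    (hbig : 13 * (6 + 13 * c₂) < s₀ * Real.log 2) (hp2 : 2 ≤ p) :
    ((s₀ ^ 2 * ((13 * s₀ ^ 3) * (13 * s₀ ^ 3)) : ℕ) : ℝ) *
      ((((s₀ ^ 2 * ((13 * s₀ ^ 3) * (13 * s₀ ^ 3)) : ℕ) : ℝ) *
        Real.exp (c₂ * ((13 * s₀ ^ 3 : ℕ) : ℝ) * (((s₀ ^ 2 : ℕ) : ℝ) + 1) ^ 2)) *
        Real.exp (c₂ * ((13 * s₀ ^ 3 : ℕ) : ℝ) * (((T + 1 : ℕ) : ℝ) + 1) ^ 2)) <
      (p : ℝ) ^ (T ^ 4) := by
  obtain ⟨D, hD⟩ : ∃ D : ℕ, D = 13 * s₀ ^ 3 := ⟨_, rfl⟩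
  rw [← hD]
  have hT1 : 1 ≤ T := le_trans (Nat.one_le_pow _ _ hs₀) hT
  have hs₀R : (1 : ℝ) ≤ s₀ := by exact_mod_cast hs₀
  have hTR : (s₀ : ℝ) ^ 2 ≤ T := by exact_mod_cast hT
  have hT1R : (1 : ℝ) ≤ T := by exact_mod_cast hT1
  have hDR : (D : ℝ) = 13 * (s₀ : ℝ) ^ 3 := by rw [hD]; push_cast; ring
  have hD0 : (0 : ℝ) ≤ D := Nat.cast_nonneg _
  have hcard : ((s₀ ^ 2 * (D * D) : ℕ) : ℝ) ≤ Real.exp (3 * D * (T : ℝ) ^ 2) := by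
    have h1 : (s₀ : ℝ) ^ 2 ≤ D := by
      rw [hDR]
      have : (s₀ : ℝ) ^ 2 ≤ (s₀ : ℝ) ^ 3 := pow_le_pow_right₀ hs₀R (by norm_num)
      nlinarith [pow_nonneg (by linarith : (0 : ℝ) ≤ s₀) 3]
    have h2 : (D : ℝ) ≤ Real.exp D := by
      have := Real.add_one_le_exp (D : ℝ)
      linarith
    calc ((s₀ ^ 2 * (D * D) : ℕ) : ℝ) = (s₀ : ℝ) ^ 2 * (D * D) := by push_cast; ring
      _ ≤ D * (D * D) := by gcongr
      _ ≤ Real.exp D * (Real.exp D * Real.exp D) := by gcongr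
      _ = Real.exp (3 * D) := by
          rw [← Real.exp_add, ← Real.exp_add]
          congr 1
          ring
      _ ≤ _ := by
          apply Real.exp_le_exp.2
          have : (1 : ℝ) ≤ (T : ℝ) ^ 2 := one_le_pow₀ hT1R
          nlinarith
  have h3 : Real.exp (c₂ * (D : ℝ) * (((s₀ ^ 2 : ℕ) : ℝ) + 1) ^ 2) ≤
      Real.exp (4 * c₂ * D * (T : ℝ) ^ 2) := by
    apply Real.exp_le_exp.2
    push_cast
    have h4 : ((s₀ : ℝ) ^ 2 + 1) ^ 2 ≤ 4 * (T : ℝ) ^ 2 := by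
      have : (s₀ : ℝ) ^ 2 + 1 ≤ 2 * T := by linarith
      calc ((s₀ : ℝ) ^ 2 + 1) ^ 2 ≤ (2 * (T : ℝ)) ^ 2 := pow_le_pow_left₀ (by positivity) this 2
        _ = _ := by ring
    calc c₂ * (D : ℝ) * ((s₀ : ℝ) ^ 2 + 1) ^ 2 ≤ c₂ * (D : ℝ) * (4 * (T : ℝ) ^ 2) := by gcongr
      _ = _ := by ring
  have h5 : Real.exp (c₂ * (D : ℝ) * (((T + 1 : ℕ) : ℝ) + 1) ^ 2) ≤
      Real.exp (9 * c₂ * D * (T : ℝ) ^ 2) := by
    apply Real.exp_le_exp.2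
    push_cast
    have h4 : ((T : ℝ) + 1 + 1) ^ 2 ≤ 9 * (T : ℝ) ^ 2 := by
      have : (T : ℝ) + 1 + 1 ≤ 3 * T := by linarith
      calc ((T : ℝ) + 1 + 1) ^ 2 ≤ (3 * (T : ℝ)) ^ 2 := pow_le_pow_left₀ (by positivity) this 2
        _ = _ := by ring
    calc c₂ * (D : ℝ) * ((T : ℝ) + 1 + 1) ^ 2 ≤ c₂ * (D : ℝ) * (9 * (T : ℝ) ^ 2) := by gcongr
      _ = _ := by ring
  have h6 : Real.exp ((6 + 13 * c₂) * D * (T : ℝ) ^ 2) < (p : ℝ) ^ (T ^ 4) := by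
    have hlog : Real.log 2 ≤ Real.log p :=
      Real.log_le_log (by norm_num) (by exact_mod_cast hp2)
    have hp0 : (0 : ℝ) < p := by exact_mod_cast (by omega : 0 < p)
    have e3 : (p : ℝ) ^ (T ^ 4) = Real.exp (((T ^ 4 : ℕ) : ℝ) * Real.log p) := by
      rw [← Real.log_pow, Real.exp_log (by positivity)]
    rw [e3]
    apply Real.exp_lt_exp.2
    have h7 : (6 + 13 * c₂) * D < (T : ℝ) ^ 2 * Real.log 2 := by
      have h8 : (s₀ : ℝ) ^ 4 ≤ (T : ℝ) ^ 2 := by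
        calc (s₀ : ℝ) ^ 4 = ((s₀ : ℝ) ^ 2) ^ 2 := by ring
          _ ≤ _ := pow_le_pow_left₀ (by positivity) hTR 2
      have hl2 : 0 < Real.log 2 := Real.log_pos (by norm_num)
      have h9 : (s₀ : ℝ) ^ 4 * Real.log 2 ≤ (T : ℝ) ^ 2 * Real.log 2 :=
        mul_le_mul_of_nonneg_right h8 hl2.le
      have h10 : (0 : ℝ) < (s₀ : ℝ) ^ 3 := by positivity
      have h11 := mul_lt_mul_of_pos_left hbig h10
      calc (6 + 13 * c₂) * D = (s₀ : ℝ) ^ 3 * (13 * (6 + 13 * c₂)) := by rw [hDR]; ring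
        _ < (s₀ : ℝ) ^ 3 * (s₀ * Real.log 2) := h11
        _ = (s₀ : ℝ) ^ 4 * Real.log 2 := by ring
        _ ≤ _ := h9
    have h12 : (0 : ℝ) < (T : ℝ) ^ 2 := by positivity
    have h13 := mul_lt_mul_of_pos_right h7 h12
    push_cast
    calc (6 + 13 * c₂) * D * (T : ℝ) ^ 2 < (T : ℝ) ^ 2 * Real.log 2 * (T : ℝ) ^ 2 := h13
      _ = (T : ℝ) ^ 4 * Real.log 2 := by ring
      _ ≤ (T : ℝ) ^ 4 * Real.log p := mul_le_mul_of_nonneg_left hlog (by positivity)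
  refine lt_of_le_of_lt ?_ h6
  calc _ ≤ Real.exp (3 * D * (T : ℝ) ^ 2) * ((Real.exp (3 * D * (T : ℝ) ^ 2) *
        Real.exp (4 * c₂ * D * (T : ℝ) ^ 2)) * Real.exp (9 * c₂ * D * (T : ℝ) ^ 2)) := by gcongr
    _ = _ := by
        rw [← Real.exp_add, ← Real.exp_add, ← Real.exp_add]
        congr 1
        ring

end Pool.Agent.Helper82.Rad
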