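import Mathlib

/-!
# A form of Siegel's lemma, and counting
-/

set_option autoImplicit false

namespace Pool.Agent.Helper82.Rad

attribute [local instance] Matrix.seminormedAddCommGroup

/-- Siegel's lemma when there are twice as many unknowns as equations -/
theorem siegel {α β : Type} [Fintype α] [Fintype β] (M : Matrix α β ℤ)
    (hn : 2 * Fintype.card α ≤ Fintype.card β) (hβ : 0 < Fintype.card β) {H : ℝ} (hH : 1 ≤ H)
    (hM : ∀ i j, |(M i j : ℝ)| ≤ H) :
    ∃ t : β → ℤ, t ≠ 0 ∧ (∀ i, ∑ j, M i j * t j = 0) ∧ ∀ j, |(t j : ℝ)| ≤ Fintype.card β * H := by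
  classical
  have hβ1 : (1 : ℝ) ≤ Fintype.card β := by exact_mod_cast hβ
  rcases Nat.eq_zero_or_pos (Fintype.card α) with h0 | h0
  · have hE : IsEmpty α := Fintype.card_eq_zero_iff.1 h0
    have hne : Nonempty β := Fintype.card_pos_iff.1 hβ
    refine ⟨fun _ => 1, ?_, fun i => (hE.false i).elim, fun j => ?_⟩
    · intro h
      have := congrFun h (Classical.arbitrary β)
      simp at this
    · rw [Int.cast_one, abs_one]
      nlinarith
  · have h1 : Fintype.card α < Fintype.card β := by omega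
    obtain ⟨t, ht0, ht1, ht2⟩ := Int.Matrix.exists_ne_zero_int_vec_norm_le M h1 h0
    refine ⟨t, ht0, fun i => ?_, fun j => ?_⟩
    · have := congrFun ht1 i
      simpa [Matrix.mulVec, dotProduct] using this
    · have h2 : ‖M‖ ≤ H := by
        rw [Matrix.norm_le_iff (by linarith)]
        intro i j
        rw [Int.norm_eq_abs]
        exact hM i j
      have h3 : max 1 ‖M‖ ≤ H := max_le hH h2
      have h4 : (1 : ℝ) ≤ Fintype.card β * max 1 ‖M‖ := by
        have : (1 : ℝ) ≤ max 1 ‖M‖ := le_max_left _ _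
        nlinarith
      have hαβ : (2 : ℝ) * Fintype.card α ≤ Fintype.card β := by exact_mod_cast hn
      have hα1 : (1 : ℝ) ≤ Fintype.card α := by exact_mod_cast h0
      have h5 : ((Fintype.card α : ℝ)) / ((Fintype.card β : ℝ) - Fintype.card α) ≤ 1 := by
        rw [div_le_one (by linarith)]
        linarith
      calc |(t j : ℝ)| = ‖t j‖ := by rw [Int.norm_eq_abs]
        _ ≤ ‖t‖ := norm_le_pi_norm t j
        _ ≤ _ := ht2
        _ ≤ (Fintype.card β * max 1 ‖M‖) ^ (1 : ℝ) := Real.rpow_le_rpow_of_exponent_le h4 h5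
        _ = Fintype.card β * max 1 ‖M‖ := Real.rpow_one _
        _ ≤ _ := mul_le_mul_of_nonneg_left h3 (by linarith)

/-- the box -/
noncomputable def box (r T : ℕ) : Finset (Fin r → ℤ) := Fintype.piFinset fun _ => Finset.Icc (-(T : ℤ)) T

lemma mem_box {r T : ℕ} {n : Fin r → ℤ} : n ∈ box r T ↔ ∀ j, |n j| ≤ T := by
  simp only [box, Fintype.mem_piFinset, Finset.mem_Icc, abs_le]

lemma card_box (r T : ℕ) : (box r T).card = (2 * T + 1) ^ r := by
  rw [box, Fintype.card_piFinset, Finset.prod_const, Finset.card_univ, Fintype.card_fin,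
    Int.card_Icc]
  congr 1
  omega

/-- few points of the box are multiples of a given element -/
theorem card_bad_le {G : Type} [AddCommGroup G] {r : ℕ} {P : Fin r → G}
    (hP : LinearIndependent ℤ P) (Q : G) (T : ℕ) (Z : Finset (Fin r → ℤ)) (hZ : Z ⊆ box r T)
    (hbad : ∀ n ∈ Z, ∃ m : ℤ, ∑ j, n j • P j = m • Q) : Z.card ≤ 2 * T + 1 := by
  classical
  by_cases h0 : ∀ n ∈ Z, n = 0
  · have : Z ⊆ {0} := fun n hn => Finset.mem_singleton.2 (h0 n hn)
    have := Finset.card_le_card this
    rw [Finset.card_singleton] at this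
    omega
  · push Not at h0
    obtain ⟨n₀, hn₀, hne⟩ := h0
    obtain ⟨j, hj⟩ : ∃ j, n₀ j ≠ 0 := by
      by_contra h
      push Not at h
      exact hne (funext h)
    obtain ⟨m₀, hm₀⟩ := hbad n₀ hn₀
    have key : ∀ n ∈ Z, ∃ m : ℤ, ∀ i, m₀ * n i = m * n₀ i := by
      intro n hn
      obtain ⟨m, hm⟩ := hbad n hn
      refine ⟨m, fun i => ?_⟩
      have h1 : ∑ i, (m₀ * n i - m * n₀ i) • P i = 0 := by
        simp only [sub_smul, mul_smul, Finset.sum_sub_distrib, ← Finset.smul_sum]
        rw [hm, hm₀, smul_comm, sub_self]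
      have := Fintype.linearIndependent_iff.1 hP _ h1 i
      linarith
    have hm₀0 : m₀ ≠ 0 := by
      rintro rfl
      rw [zero_smul] at hm₀
      exact hj (Fintype.linearIndependent_iff.1 hP _ hm₀ j)
    have hinj : Set.InjOn (fun n : Fin r → ℤ => n j) Z := by
      intro n hn n' hn' h
      obtain ⟨m, hm⟩ := key n hn
      obtain ⟨m', hm'⟩ := key n' hn'
      have h1 := hm j
      have h2 := hm' j
      have h3 : n j = n' j := h
      rw [h3, h2] at h1
      have h4 : m' = m := mul_right_cancel₀ hj h1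
      funext i
      have h5 := hm i
      have h6 := hm' i
      rw [h4, ← h5] at h6
      exact (mul_left_cancel₀ hm₀0 h6).symm
    have h1 : Z.card ≤ (Finset.Icc (-(T : ℤ)) T).card := by
      refine Finset.card_le_card_of_injOn (fun n => n j) (fun n hn => ?_) hinj
      have := mem_box.1 (hZ hn) j
      rw [Finset.mem_coe, Finset.mem_Icc]
      exact abs_le.1 this
    rw [Int.card_Icc] at h1
    omega

end Pool.Agent.Helper82.Rad
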