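import Pool.Agent.Helper82.Rad.NonVan
import Pool.Agent.Helper82.Rad.Siegel

/-!
# A point where the auxiliary function does not vanish
-/

set_option autoImplicit false

namespace Pool.Agent.Helper82.Rad

open WeierstrassCurve Pool.Agent.Y732 Pool.Agent.Helper316_PR

variable {p : ℕ} {A B : ℤ}

lemma two_multiples {G : Type*} [AddCommGroup G] {Q R R' : G}
    (hRR' : ∀ a b : ℤ, a • R + b • R' = 0 → a = 0 ∧ b = 0) {l a n : ℕ} {m m' : ℤ} (hl : 0 < l)
    (ha : l • R' + a • R = m • Q) (hn : l • R' + n • R = m' • Q) : n = a := by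
  have h1 : ((n : ℤ) - a) • R = (m' - m) • Q := by
    rw [sub_smul, sub_smul, ← hn, ← ha, natCast_zsmul, natCast_zsmul]
    abel
  have h2 : ((m' - m) * a - m * ((n : ℤ) - a)) • R + ((m' - m) * (l : ℤ)) • R' = 0 := by
    have h3 : (m' - m) • ((l : ℤ) • R' + (a : ℤ) • R) = m • ((m' - m) • Q) := by
      rw [natCast_zsmul, natCast_zsmul, ha, smul_comm]
    rw [← h1, smul_add, smul_smul, smul_smul, smul_smul] at h3
    rw [sub_smul, ← h3]
    abel
  obtain ⟨h3, h4⟩ := hRR' _ _ h2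
  have h5 : m' - m = 0 := by
    rcases mul_eq_zero.1 h4 with h5 | h5
    · exact h5
    · omega
  rw [h5, zero_smul] at h1
  have h6 := (hRR' ((n : ℤ) - a) 0 (by rw [h1, zero_smul, add_zero])).1
  omega

lemma not_tors_pair {G : Type*} [AddCommGroup G] {R R' : G}
    (hRR' : ∀ a b : ℤ, a • R + b • R' = 0 → a = 0 ∧ b = 0) :
    ¬ IsOfFinAddOrder R ∧ ¬ IsOfFinAddOrder R' := by
  constructor
  · intro h
    obtain ⟨n, hn, h1⟩ := isOfFinAddOrder_iff_nsmul_eq_zero.1 h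
    have h2 := (hRR' n 0 (by rw [zero_smul, add_zero, natCast_zsmul, h1])).1
    omega
  · intro h
    obtain ⟨n, hn, h1⟩ := isOfFinAddOrder_iff_nsmul_eq_zero.1 h
    have h2 := (hRR' 0 n (by rw [zero_smul, zero_add, natCast_zsmul, h1])).2
    omega

lemma eq_or_neg_of_xc {P Q : (EQ A B).Point} (hP : P ≠ 0) (hQ : Q ≠ 0) (h : xc P = xc Q) :
    P = Q ∨ P = -Q := by
  rcases P with _ | ⟨x₁, y₁, g₁⟩
  · exact absurd rfl hP
  rcases Q with _ | ⟨x₂, y₂, g₂⟩
  · exact absurd rfl hQ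
  have h1 : (x₁ : ℝ) = (x₂ : ℝ) := h
  have hx : x₁ = x₂ := by exact_mod_cast h1
  apply Affine.Point.eq_or_eq_neg_of_xRep_eq_xRep
  rw [Affine.Point.xRep_some, Affine.Point.xRep_some, hx]

/-- the first coordinates of the members of a progression take infinitely many values -/
theorem exists_avoid {R' z₀ : (EQ A B).Point} (hR' : ¬ IsOfFinAddOrder R')
    (hz : ∀ l : ℕ, 0 < l → z₀ + l • R' ≠ 0) (s : Set ℝ) (hs : s.Finite) :
    ∃ l : ℕ, 0 < l ∧ xc (z₀ + l • R') ∉ s := by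
  by_contra hcon
  push Not at hcon
  have hinj : ∀ l l' : ℕ, z₀ + l • R' = z₀ + l' • R' → l = l' := by
    intro l l' h
    have h1 : l • R' = l' • R' := add_left_cancel h
    by_contra hne
    rcases lt_or_gt_of_ne hne with h2 | h2
    · apply hR'
      refine isOfFinAddOrder_iff_nsmul_eq_zero.2 ⟨l' - l, by omega, ?_⟩
      have e : l' • R' = (l' - l) • R' + l • R' := by rw [← add_smul]; congr 1; omega
      rw [← h1] at e
      exact right_eq_add.1 e
    · apply hR'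
      refine isOfFinAddOrder_iff_nsmul_eq_zero.2 ⟨l - l', by omega, ?_⟩
      have e : l • R' = (l - l') • R' + l' • R' := by rw [← add_smul]; congr 1; omega
      rw [h1] at e
      exact right_eq_add.1 e
  have : Finite s := hs
  obtain ⟨y, hy⟩ := Finite.exists_infinite_fiber
    (fun l : ℕ => (⟨xc (z₀ + (l + 1) • R'), hcon (l + 1) (Nat.succ_pos l)⟩ : s))
  have hinf : ((fun l : ℕ => (⟨xc (z₀ + (l + 1) • R'), hcon (l + 1) (Nat.succ_pos l)⟩ : s)) ⁻¹'
      {y}).Infinite := Set.infinite_coe_iff.1 hy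
  obtain ⟨l₁, h₁⟩ := hinf.nonempty
  obtain ⟨l₂, h₂, hl₂⟩ := hinf.exists_gt l₁
  obtain ⟨l₃, h₃, hl₃⟩ := hinf.exists_gt l₂
  have e₁ : xc (z₀ + (l₁ + 1) • R') = y := congrArg Subtype.val h₁
  have e₂ : xc (z₀ + (l₂ + 1) • R') = y := congrArg Subtype.val h₂
  have e₃ : xc (z₀ + (l₃ + 1) • R') = y := congrArg Subtype.val h₃
  have f₁ := hz (l₁ + 1) (Nat.succ_pos _)
  have f₂ := hz (l₂ + 1) (Nat.succ_pos _)
  have f₃ := hz (l₃ + 1) (Nat.succ_pos _)
  rcases eq_or_neg_of_xc f₂ f₁ (e₂.trans e₁.symm) with h4 | h4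
  · have := hinj _ _ h4
    omega
  · rcases eq_or_neg_of_xc f₃ f₁ (e₃.trans e₁.symm) with h5 | h5
    · have := hinj _ _ h5
      omega
    · have := hinj _ _ (h4.trans h5.symm)
      omega

/-- there is a combination of `R` and `R'` where the auxiliary function does not vanish -/
theorem exists_aux_ne_zero (hD : 4 * A ^ 3 + 27 * B ^ 2 ≠ 0) (hp2 : 2 ≤ p)
    {q : (EQ A B).Point → ℝ} (hq0 : ∀ P, 0 ≤ q P)
    (hq : ∀ P Q, q (P + Q) + q (P - Q) = 2 * q P + 2 * q Q) {C : ℝ} (hC0 : 0 ≤ C)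
    (hCu : ∀ P : (EQ A B).Point, nh P ≤ q P + C) (hCl : ∀ P : (EQ A B).Point, q P - C ≤ nh P)
    {Q R R' : (EQ A B).Point} (hRR' : ∀ a b : ℤ, a • R + b • R' = 0 → a = 0 ∧ b = 0)
    (hβ : 0 < q (R + Q) - q R - q Q)
    {S D : ℕ} (c : Fin S × Fin D × Fin D → ℤ) (hc : c ≠ 0) :
    ∃ a b : ℤ, (∀ m : ℤ, a • R + b • R' ≠ m • Q) ∧ aux p Q c (a • R + b • R') ≠ 0 := by
  classical
  obtain ⟨hR, hR'⟩ := not_tors_pair hRR'
  -- the largest class
  obtain ⟨κ₁, hκ₁⟩ : ∃ κ, c κ ≠ 0 := by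
    by_contra h
    push Not at h
    exact hc (funext h)
  obtain ⟨⟨i₀, b₀, d₀⟩, hκ₀, hmax⟩ := Finset.exists_max_image
    (Finset.univ.filter fun κ : Fin S × Fin D × Fin D => c κ ≠ 0)
    (fun κ => 2 * D * (κ.1 : ℕ) + (κ.2.2 : ℕ)) ⟨κ₁, by simp [hκ₁]⟩
  have hmax' : ∀ κ, c κ ≠ 0 → 2 * D * (κ.1 : ℕ) + (κ.2.2 : ℕ) ≤ 2 * D * (i₀ : ℕ) + (d₀ : ℕ) :=
    fun κ hκ => hmax κ (by simp [hκ])
  have hc₀ : c (i₀, b₀, d₀) ≠ 0 := (Finset.mem_filter.1 hκ₀).2
  -- the polynomial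
  obtain ⟨F, hF⟩ : ∃ F : Polynomial ℝ, F = ∑ b : Fin D, Polynomial.C (c (i₀, b, d₀) : ℝ) *
      Polynomial.X ^ (b : ℕ) := ⟨_, rfl⟩
  have hF0 : F ≠ 0 := by
    intro h
    have h1 := congrArg (fun f => Polynomial.coeff f (b₀ : ℕ)) h
    simp only [hF, Polynomial.finsetSum_coeff, Polynomial.coeff_C_mul, Polynomial.coeff_X_pow,
      Polynomial.coeff_zero] at h1
    rw [Finset.sum_eq_single b₀] at h1
    · simp only [if_true, mul_one] at h1
      exact hc₀ (by exact_mod_cast h1)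
    · intro b _ hb
      rw [if_neg, mul_zero]
      intro h2
      exact hb (Fin.ext h2.symm)
    · intro h2
      exact absurd (Finset.mem_univ _) h2
  have heven : Even (2 * (p - 1)) := ⟨p - 1, by ring⟩
  have hfin : {t : ℝ | F.eval (t ^ (2 * (p - 1))) = 0}.Finite := by
    have h1 : (F.comp (Polynomial.X ^ (2 * (p - 1)))) ≠ 0 := by
      intro h2
      rw [Polynomial.comp_eq_zero_iff] at h2
      rcases h2 with h2 | ⟨-, h3⟩
      · exact hF0 h2
      · have h4 := congrArg (fun f => Polynomial.coeff f (2 * (p - 1))) h3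
        simp only [Polynomial.coeff_X_pow, if_true] at h4
        rw [Polynomial.coeff_C, if_neg (by omega)] at h4
        exact one_ne_zero h4
    refine (Polynomial.finite_setOfPred_isRoot h1).subset fun t ht => ?_
    have ht' : F.eval (t ^ (2 * (p - 1))) = 0 := ht
    show Polynomial.IsRoot _ t
    rw [Polynomial.IsRoot, Polynomial.eval_comp, Polynomial.eval_pow, Polynomial.eval_X, ht']
  -- a starting value for the progression
  have hzero : ∀ W : (EQ A B).Point, ∃ L : ℕ, ∀ l : ℕ, L ≤ l → W + l • R' ≠ 0 := by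
    intro W
    by_cases h : ∃ a : ℕ, W + a • R' = 0
    · obtain ⟨a, ha⟩ := h
      refine ⟨a + 1, fun l hl h1 => ?_⟩
      apply hR'
      refine isOfFinAddOrder_iff_nsmul_eq_zero.2 ⟨l - a, by omega, ?_⟩
      have e : l • R' = (l - a) • R' + a • R' := by rw [← add_smul]; congr 1; omega
      rw [e, add_comm _ (a • R'), ← add_assoc, ha, zero_add] at h1
      exact h1
    · push Not at h
      exact ⟨0, fun l _ => h l⟩
  obtain ⟨L₁, hL₁⟩ := hzero (((i₀ : ℕ) : ℤ) • Q)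
  obtain ⟨L₂, hL₂⟩ := hzero ((((i₀ : ℕ) : ℤ) + 1) • Q)
  obtain ⟨L, hL⟩ : ∃ L : ℕ, L = L₁ + L₂ := ⟨_, rfl⟩
  obtain ⟨l, hl0, hl⟩ := exists_avoid (z₀ := ((i₀ : ℕ) : ℤ) • Q + L • R') hR' (by
    intro l _
    rw [add_assoc, ← add_smul]
    exact hL₁ _ (by omega)) _ hfin
  obtain ⟨l', hl'⟩ : ∃ l' : ℕ, l' = L + l := ⟨_, rfl⟩
  have hl'0 : 0 < l' := by omega
  rw [add_assoc, ← add_smul, ← hl'] at hl
  have hz : l' • R' + ((i₀ : ℕ) : ℤ) • Q ≠ 0 := by
    rw [add_comm]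
    exact hL₁ _ (by omega)
  have hz' : l' • R' + (((i₀ : ℕ) : ℤ) + 1) • Q ≠ 0 := by
    rw [add_comm]
    exact hL₂ _ (by omega)
  -- large multiples are not multiples of `Q`
  obtain ⟨K, hK⟩ : ∃ K : ℕ, ∀ n : ℕ, K ≤ n → ∀ m : ℤ, l' • R' + n • R ≠ m • Q := by
    by_cases h : ∃ (a : ℕ) (m : ℤ), l' • R' + a • R = m • Q
    · obtain ⟨a, m, ha⟩ := h
      refine ⟨a + 1, fun n hn m' hn' => ?_⟩
      have := two_multiples hRR' hl'0 ha hn'
      omega
    · push Not at h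
      exact ⟨0, fun n _ m => h n m⟩
  obtain ⟨n, hn, hne⟩ := aux_ne_zero (p := p) hD hp2 hq0 hq hC0 hCu hCl hR hβ c i₀ d₀ hmax' hz hz'
    (by
      intro h
      apply hl
      show F.eval _ = 0
      rw [hF, Polynomial.eval_finsetSum]
      simp only [Polynomial.eval_mul, Polynomial.eval_C, Polynomial.eval_pow, Polynomial.eval_X]
      rw [add_comm (((i₀ : ℕ) : ℤ) • Q)]
      exact h) K
  refine ⟨n, l', fun m => ?_, ?_⟩
  · have := hK n hn m
    rw [natCast_zsmul, natCast_zsmul, add_comm]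
    exact this
  · rw [natCast_zsmul, natCast_zsmul, add_comm]
    exact hne

end Pool.Agent.Helper82.Rad
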