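import Pool.Agent.Helper82.Rad.Main

/-!
# The `p`-adic and the real height pairing
-/

set_option autoImplicit false

namespace Pool.Agent.Helper82.Rad

open WeierstrassCurve Pool.Agent.Y732 Pool.Agent.Helper316_PR

section abs

variable {G : Type} [AddCommGroup G]

lemma pair_neg_left {q : G → ℝ} (hq : ∀ P Q, q (P + Q) + q (P - Q) = 2 * q P + 2 * q Q)
    (X Y : G) : q (-X + Y) - q (-X) - q Y = -(q (X + Y) - q X - q Y) := by
  have h1 : prHom hq Y (-X) = - prHom hq Y X := map_neg _ _
  exact h1

lemma indep_pair {P : Fin 4 → G} (hP : LinearIndependent ℤ P) {j k : Fin 4} (hjk : k ≠ j)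
    {e : ℤ} (he : e ≠ 0) (a b : ℤ) (h : a • (e • P j) + b • P k = 0) : a = 0 ∧ b = 0 := by
  classical
  have h1 : ∑ i, (Pi.single j (a * e) + Pi.single k b : Fin 4 → ℤ) i • P i = 0 := by
    simp only [Pi.add_apply, add_smul, Finset.sum_add_distrib]
    rw [Finset.sum_eq_single j, Finset.sum_eq_single k]
    · rw [Pi.single_eq_same, Pi.single_eq_same, mul_smul, h]
    · intro i _ hi
      rw [Pi.single_eq_of_ne hi, zero_smul]
    · intro h; exact absurd (Finset.mem_univ _) h
    · intro i _ hi
      rw [Pi.single_eq_of_ne hi, zero_smul]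
    · intro h; exact absurd (Finset.mem_univ _) h
  have h2 := Fintype.linearIndependent_iff.1 hP _ h1
  have h3 := h2 j
  have h4 := h2 k
  rw [Pi.add_apply, Pi.single_eq_same, Pi.single_eq_of_ne hjk.symm, add_zero] at h3
  rw [Pi.add_apply, Pi.single_eq_same, Pi.single_eq_of_ne hjk, zero_add] at h4
  exact ⟨(mul_eq_zero.1 h3).resolve_right he, h4⟩

lemma span_pair {P : Fin 4 → G} {j k : Fin 4} (e a b : ℤ) :
    ∃ n : Fin 4 → ℤ, ∑ i, n i • P i = a • (e • P j) + b • P k := by
  classical
  refine ⟨Pi.single j (a * e) + Pi.single k b, ?_⟩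
  simp only [Pi.add_apply, add_smul, Finset.sum_add_distrib]
  rw [Finset.sum_eq_single j, Finset.sum_eq_single k]
  · rw [Pi.single_eq_same, Pi.single_eq_same, mul_smul]
  · intro i _ hi
    rw [Pi.single_eq_of_ne hi, zero_smul]
  · intro h; exact absurd (Finset.mem_univ _) h
  · intro i _ hi
    rw [Pi.single_eq_of_ne hi, zero_smul]
  · intro h; exact absurd (Finset.mem_univ _) h

/-- a quadratic function which is bounded below is nonnegative -/
lemma quad_nonneg {q : G → ℝ} (hq : ∀ P Q, q (P + Q) + q (P - Q) = 2 * q P + 2 * q Q) {C : ℝ}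
    (hC : ∀ P, -C ≤ q P) (P : G) : 0 ≤ q P := by
  by_contra h
  push Not at h
  obtain ⟨n, hn⟩ := exists_nat_gt (C / -(q P))
  rw [div_lt_iff₀ (by linarith)] at hn
  have h1 := hC (((n + 1 : ℕ) : ℤ) • P)
  rw [quadratic_int hq] at h1
  push_cast at h1
  have hn0 : (0 : ℝ) ≤ n := Nat.cast_nonneg _
  nlinarith [mul_nonneg hn0 hn0, mul_nonneg (mul_nonneg hn0 hn0) (by linarith : 0 ≤ -(q P)),
    mul_nonneg hn0 (by linarith : 0 ≤ -(q P))]

end abs

variable {p : ℕ} [hp : Fact p.Prime] {A B : ℤ}

/-- a Néron-Tate height: a quadratic form which is close to the naive height -/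
def IsNT (A B : ℤ) (q : (EQ A B).Point → ℝ) : Prop :=
  (∀ P Q, q (P + Q) + q (P - Q) = 2 * q P + 2 * q Q) ∧ ∃ C : ℝ, ∀ P, |q P - nh P| ≤ C

lemma nh_nonneg (P : (EQ A B).Point) : 0 ≤ nh P := by
  refine le_trans ?_ (log_dn_le P)
  have := Real.log_natCast_nonneg (dn P)
  linarith

/-- **four independent points which are `p`-adically orthogonal to a point are orthogonal to it
for the Néron-Tate height** -/
theorem orth_real (hp3 : 3 ≤ p) (hD : 4 * A ^ 3 + 27 * B ^ 2 ≠ 0)
    {h : (EQ A B).Point → ℚ_[p]} (hh : IsHeight p A B h)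
    {q : (EQ A B).Point → ℝ} (hNT : IsNT A B q)
    {P : Fin 4 → (EQ A B).Point} (hP : LinearIndependent ℤ P)
    {Q : (EQ A B).Point} (horth : ∀ j, h (Q + P j) = h Q + h (P j)) (j : Fin 4) :
    q (Q + P j) = q Q + q (P j) := by
  classical
  obtain ⟨hq, C, hC⟩ := hNT
  have hC0 : 0 ≤ C := (abs_nonneg _).trans (hC 0)
  have hCu : ∀ P : (EQ A B).Point, nh P ≤ q P + C := fun P => by
    have := (abs_le.1 (hC P)).1
    linarith
  have hCl : ∀ P : (EQ A B).Point, q P - C ≤ nh P := fun P => by
    have := (abs_le.1 (hC P)).2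
    linarith
  have hq0 : ∀ P, 0 ≤ q P := quad_nonneg hq (C := C) fun P => by
    have := nh_nonneg P
    have := hCu P
    linarith
  by_contra hne
  obtain ⟨m, hm, hmG⟩ := exists_mul_mem_Gd_fin (p := p) hD (fun i : Option (Fin 4) => i.elim Q P)
  have hmQ : m • Q ∈ Gd A B p := hmG none
  have hmP : ∀ i, m • P i ∈ Gd A B p := fun i => hmG (some i)
  have hP' := indep_nsmul hP hm
  have hmR : (m : ℝ) ≠ 0 := by exact_mod_cast hm.ne'
  obtain ⟨k, hk⟩ : ∃ k : Fin 4, k ≠ j := exists_ne j
  have horth' : ∀ i, h (m • Q + m • P i) = h (m • Q) + h (m • P i) := by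
    intro i
    have h1 := pair_nsmul_left hh.1 m Q (m • P i)
    have h2 := pair_nsmul_right hh.1 m Q (P i)
    rw [h2, horth i] at h1
    linear_combination h1
  have hβ : q (m • P j + m • Q) - q (m • P j) - q (m • Q) ≠ 0 := by
    rw [pair_nsmul_left hq, pair_nsmul_right hq, add_comm (P j) Q]
    refine mul_ne_zero hmR (mul_ne_zero hmR ?_)
    intro h1
    apply hne
    linarith
  rcases lt_or_gt_of_ne hβ with hβ | hβ
  · refine main hp3 hD hh hq0 hq hC0 hCu hCl hP' hmP hmQ horth'
      (R := (-1 : ℤ) • (m • P j)) (R' := m • P k)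
      (fun a b hab => indep_pair hP' hk (by norm_num) a b hab)
      (fun a b => span_pair (P := fun i => m • P i) (-1) a b) ?_
    have e : (-1 : ℤ) • (m • P j) = -(m • P j) := by
      rw [neg_smul, one_smul]
    rw [e, pair_neg_left hq]
    linarith
  · refine main hp3 hD hh hq0 hq hC0 hCu hCl hP' hmP hmQ horth'
      (R := (1 : ℤ) • (m • P j)) (R' := m • P k)
      (fun a b hab => indep_pair hP' hk (by norm_num) a b hab)
      (fun a b => span_pair (P := fun i => m • P i) 1 a b) ?_
    rw [one_smul]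
    exact hβ

section abs

variable {G : Type} [AddCommGroup G]

/-- one member of an independent family may be changed by an independent element -/
lemma indep_update {P : Fin 4 → G} (hP : LinearIndependent ℤ P) {Q : G}
    (hQ : ∀ (m : ℤ) (n : Fin 4 → ℤ), m • Q = ∑ j, n j • P j → m = 0) :
    LinearIndependent ℤ (Function.update P 0 (P 0 + Q)) := by
  classical
  rw [Fintype.linearIndependent_iff]
  intro n hn
  have h1 : ∑ j, n j • (Function.update P 0 (P 0 + Q)) j = ∑ j, n j • P j + n 0 • Q := by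
    rw [Fin.sum_univ_four, Fin.sum_univ_four]
    have e1 : Function.update P 0 (P 0 + Q) 0 = P 0 + Q := Function.update_self _ _ _
    have e2 : Function.update P 0 (P 0 + Q) 1 = P 1 := Function.update_of_ne (by decide) _ _
    have e3 : Function.update P 0 (P 0 + Q) 2 = P 2 := Function.update_of_ne (by decide) _ _
    have e4 : Function.update P 0 (P 0 + Q) 3 = P 3 := Function.update_of_ne (by decide) _ _
    rw [e1, e2, e3, e4, smul_add]
    abel
  rw [h1] at hn
  have h2 : n 0 = 0 := by
    have := hQ (n 0) (fun j => -n j) (by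
      simp only [neg_smul, Finset.sum_neg_distrib]
      exact eq_neg_of_add_eq_zero_right hn)
    exact this
  rw [h2, zero_smul, add_zero] at hn
  exact Fintype.linearIndependent_iff.1 hP n hn

end abs

/-- the points which are orthogonal to a point of height zero have rank at most three -/
theorem isotropic (hp3 : 3 ≤ p) (hD : 4 * A ^ 3 + 27 * B ^ 2 ≠ 0)
    {h : (EQ A B).Point → ℚ_[p]} (hh : IsHeight p A B h)
    {P : Fin 4 → (EQ A B).Point} (hP : LinearIndependent ℤ P)
    {Q : (EQ A B).Point} (hQ : h Q = 0) (horth : ∀ j, h (Q + P j) = h Q + h (P j)) :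
    IsOfFinAddOrder Q := by
  classical
  by_contra hQt
  obtain ⟨q, hq0, hq', -, hpos, C, hC⟩ := exists_canon hD
  have hq : ∀ P Q, q (P + Q) + q (P - Q) = 2 * q P + 2 * q Q := fun P Q => by
    rw [hq' P Q]
    ring
  have hqQ := hpos Q hQt
  have hNT : IsNT A B q := ⟨hq, C, hC⟩
  have h2 : q (Q + Q) - q Q - q Q = 2 * q Q := by
    have h3 := hq Q Q
    have h4 : q (Q - Q) = 0 := by
      rw [sub_self]
      have h5 := hq 0 0
      rw [add_zero, sub_zero] at h5
      linarith
    linarith
  by_cases hdep : ∃ m : ℤ, ∃ n : Fin 4 → ℤ, m • Q = ∑ j, n j • P j ∧ m ≠ 0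
  · obtain ⟨m, n, hmn, hm⟩ := hdep
    have h3 : prHom hq Q (m • Q) = ∑ j, (n j : ℝ) * prHom hq Q (P j) := by
      rw [hmn, map_sum]
      exact Finset.sum_congr rfl fun j _ => by rw [map_zsmul, zsmul_eq_mul]
    have h4 : ∀ j, prHom hq Q (P j) = 0 := by
      intro j
      have h5 := orth_real hp3 hD hh hNT hP horth j
      have h6 : prHom hq Q (P j) = q (P j + Q) - q (P j) - q Q := rfl
      rw [h6, add_comm, h5]
      ring
    rw [map_zsmul, zsmul_eq_mul, Finset.sum_eq_zero fun j _ => by rw [h4, mul_zero]] at h3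
    have h5 : prHom hq Q Q = q (Q + Q) - q Q - q Q := rfl
    rw [h5, h2] at h3
    have hmR : (m : ℝ) ≠ 0 := by exact_mod_cast hm
    rcases mul_eq_zero.1 h3 with h6 | h6
    · exact hmR h6
    · linarith
  · push Not at hdep
    have hP' := indep_update hP hdep
    have hQQ : h (Q + Q) - h Q - h Q = 0 := by
      have h3 := hh.1 Q Q
      have h4 : h (Q - Q) = 0 := by
        rw [sub_self]
        have h5 := hh.1 0 0
        rw [add_zero, sub_zero] at h5
        have h6 : (2 : ℚ_[p]) * h 0 = 0 := by linear_combination -h5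
        exact (mul_eq_zero.1 h6).resolve_left two_ne_zero
      rw [h4, hQ] at h3
      rw [hQ]
      linear_combination h3
    have horth' : ∀ j, h (Q + Function.update P 0 (P 0 + Q) j) =
        h Q + h (Function.update P 0 (P 0 + Q) j) := by
      intro j
      by_cases hj : j = 0
      · subst hj
        rw [Function.update_self]
        have h3 : prHom hh.1 Q (P 0 + Q) = prHom hh.1 Q (P 0) + prHom hh.1 Q Q := map_add _ _ _
        have h4 : h (P 0 + Q + Q) - h (P 0 + Q) - h Q = h (P 0 + Q) - h (P 0) - h Q +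
          (h (Q + Q) - h Q - h Q) := h3
        rw [hQQ] at h4
        have h5 := horth 0
        rw [add_comm Q (P 0)] at h5
        rw [add_comm Q]
        linear_combination h4 + h5
      · rw [Function.update_of_ne hj]
        exact horth j
    have h3 := orth_real hp3 hD hh hNT hP' horth' 0
    rw [Function.update_self] at h3
    have h4 := orth_real hp3 hD hh hNT hP horth 0
    have h5 : prHom hq Q (P 0 + Q) = prHom hq Q (P 0) + prHom hq Q Q := map_add _ _ _
    have h6 : q (P 0 + Q + Q) - q (P 0 + Q) - q Q = q (P 0 + Q) - q (P 0) - q Q +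
      (q (Q + Q) - q Q - q Q) := h5
    rw [h2] at h6
    rw [add_comm Q (P 0 + Q)] at h3
    rw [add_comm Q (P 0)] at h4
    linarith

end Pool.Agent.Helper82.Rad
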