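import Pool.Agent.Helper82.Rad.Units

/-!
# The auxiliary functions and their divisibility by powers of `p`
-/

set_option autoImplicit false

namespace Pool.Agent.Helper82.Rad

open WeierstrassCurve Pool.Agent.Y732 Pool.Agent.Helper316_PR

variable {p : ℕ} [hp : Fact p.Prime] {A B : ℤ}

/-- the powers of the numerators -/
def U (p : ℕ) (Q x : (EQ A B).Point) (i : ℤ) : ℤ := nm (x + i • Q) ^ (2 * (p - 1))

/-- the powers of the denominators -/
def V (p : ℕ) (Q x : (EQ A B).Point) (i : ℤ) : ℤ := (dn (x + i • Q) : ℤ) ^ (4 * (p - 1))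

/-- the monomials -/
def mon (p : ℕ) (Q x : (EQ A B).Point) {S D : ℕ} (κ : Fin S × Fin D × Fin D) : ℤ :=
  U p Q x (κ.1 : ℕ) ^ (κ.2.1 : ℕ) * V p Q x (κ.1 : ℕ) ^ (2 * D - κ.2.1 - κ.2.2) *
    V p Q x ((κ.1 : ℕ) + 1) ^ (κ.2.2 : ℕ)

/-- the auxiliary function -/
def aux (p : ℕ) (Q : (EQ A B).Point) {S D : ℕ} (c : Fin S × Fin D × Fin D → ℤ)
    (x : (EQ A B).Point) : ℤ := ∑ κ, c κ * mon p Q x κ

section

variable {ι : Type*} {x : ι → (EQ A B).Point} {Q : (EQ A B).Point}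

lemma pm_one (hp3 : 3 ≤ p) {h : (EQ A B).Point → ℚ_[p]} {u v : (EQ A B).Point → ℤ_[p]}
    (hu : ∀ P ∈ Gd A B p, (p : ℤ_[p]) ∣ u P - 1 ∧ u P * v P = 1 ∧
        plog p (u P) = ((4 * (p - 1) : ℕ) : ℚ_[p]) * h P) (hx : ∀ i, x i ∈ Gd A B p)
    (hQ : Q ∈ Gd A B p) (hne : ∀ i (m : ℤ), x i ≠ m • Q)
    (horth : ∀ i (m : ℤ), h (x i + m • Q) = h (x i) + h (m • Q))
    {W : (EQ A B).Point → ℤ_[p]} {τ : PowerSeries ℤ_[p]} {k : ℕ}
    (hW : ∀ P ∈ Gd A B p, W P * u P = ev (tz p P) τ ^ k) (K : ℕ) (m : ℤ) :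
    PM K (fun i => tz p (x i)) fun i => u (x i) * W (x i + m • Q) := by
  have hmQ : m • Q ∈ Gd A B p := (Gd A B p).zsmul_mem hQ m
  have h1 : ∀ i, u (x i) * W (x i + m • Q) = v (m • Q) * ev (tz p (x i + m • Q)) τ ^ k := by
    intro i
    have h2 := unit_mul hp3 hu (hx i) hmQ (horth i m)
    have h3 := hW _ ((Gd A B p).add_mem (hx i) hmQ)
    have h4 := (hu _ hmQ).2.1
    rw [h2] at h3
    linear_combination v (m • Q) * h3 - u (x i) * W (x i + m • Q) * h4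
  have h2 : PM K (fun i => tz p (x i)) fun i => ev (tz p (x i + m • Q)) τ := by
    by_cases h0 : m • Q = 0
    · simp only [h0, add_zero]
      exact PM.ev PM.self (fun i => dvd_tz (Gd_le (hx i))) τ
    · refine pm_sigma (fun i => Gd_le (hx i)) (Gd_le hmQ) (fun i h => ?_) h0 (fun i => hne i m)
        (fun i h => ?_) τ K
      · exact hne i 0 (h.trans (zero_zsmul Q).symm)
      · exact hne i (-m) (h.trans (neg_zsmul Q m).symm)
  have h3 := (PM.const (K := K) (t := fun i => tz p (x i)) (v (m • Q))).mul (h2.pow k)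
  have e : (fun i => u (x i) * W (x i + m • Q)) =
      fun i => v (m • Q) * ev (tz p (x i + m • Q)) τ ^ k := funext h1
  rw [e]
  exact h3

/-- **the values of the auxiliary function are divisible by high powers of `p`** -/
theorem aux_dvd (hp3 : 3 ≤ p) {h : (EQ A B).Point → ℚ_[p]} (hh : IsHeight p A B h)
    (hx : ∀ i, x i ∈ Gd A B p) (hxi : Function.Injective x)
    (hQ : Q ∈ Gd A B p) (hne : ∀ i (m : ℤ), x i ≠ m • Q)
    (horth : ∀ i (m : ℤ), h (x i + m • Q) = h (x i) + h (m • Q)) {S D : ℕ}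
    (c : Fin S × Fin D × Fin D → ℤ) (Z : Finset ι) (hZ : ∀ i ∈ Z, aux p Q c (x i) = 0) (i : ι) :
    (p : ℤ) ^ Z.card ∣ aux p Q c (x i) := by
  obtain ⟨σ, τ, u, v, huv⟩ := exists_units' hh
  have hu : ∀ P ∈ Gd A B p, (p : ℤ_[p]) ∣ u P - 1 ∧ u P * v P = 1 ∧
        plog p (u P) = ((4 * (p - 1) : ℕ) : ℚ_[p]) * h P := fun P hP =>
    ⟨(huv P hP).1, (huv P hP).2.1, (huv P hP).2.2.2.2⟩
  have hV : ∀ (K : ℕ) (m : ℤ), PM K (fun i => tz p (x i)) fun i =>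
      u (x i) * (V p Q (x i) m : ℤ_[p]) := by
    intro K m
    have := pm_one (W := fun P => (dn P : ℤ_[p]) ^ (4 * (p - 1))) hp3 hu hx hQ hne horth
      (fun P hP => (huv P hP).2.2.1) K m
    simpa only [V, Int.cast_pow, Int.cast_natCast] using this
  have hU : ∀ (K : ℕ) (m : ℤ), PM K (fun i => tz p (x i)) fun i =>
      u (x i) * (U p Q (x i) m : ℤ_[p]) := by
    intro K m
    have := pm_one (W := fun P => (nm P : ℤ_[p]) ^ (2 * (p - 1))) hp3 hu hx hQ hne horth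
      (fun P hP => (huv P hP).2.2.2.1) K m
    simpa only [U, Int.cast_pow] using this
  have hΦ : ∀ K, PM K (fun i => tz p (x i)) fun i =>
      u (x i) ^ (2 * D) * (aux p Q c (x i) : ℤ_[p]) := by
    intro K
    have h1 : PM K (fun i => tz p (x i)) fun i => ∑ κ : Fin S × Fin D × Fin D, (c κ : ℤ_[p]) *
        ((u (x i) * (U p Q (x i) (κ.1 : ℕ) : ℤ_[p])) ^ (κ.2.1 : ℕ) *
          (u (x i) * (V p Q (x i) (κ.1 : ℕ) : ℤ_[p])) ^ (2 * D - κ.2.1 - κ.2.2) *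
          (u (x i) * (V p Q (x i) ((κ.1 : ℕ) + 1) : ℤ_[p])) ^ (κ.2.2 : ℕ)) :=
      PM.sum _ fun κ _ => (PM.const _).mul
        ((((hU K _).pow _).mul ((hV K _).pow _)).mul ((hV K _).pow _))
    have e : (fun i => u (x i) ^ (2 * D) * (aux p Q c (x i) : ℤ_[p])) = fun i =>
        ∑ κ : Fin S × Fin D × Fin D, (c κ : ℤ_[p]) *
        ((u (x i) * (U p Q (x i) (κ.1 : ℕ) : ℤ_[p])) ^ (κ.2.1 : ℕ) *
          (u (x i) * (V p Q (x i) (κ.1 : ℕ) : ℤ_[p])) ^ (2 * D - κ.2.1 - κ.2.2) *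
          (u (x i) * (V p Q (x i) ((κ.1 : ℕ) + 1) : ℤ_[p])) ^ (κ.2.2 : ℕ)) := by
      funext i
      rw [aux, Int.cast_sum, Finset.mul_sum]
      refine Finset.sum_congr rfl fun κ _ => ?_
      have h2 : 2 * D = (κ.2.1 : ℕ) + (2 * D - κ.2.1 - κ.2.2) + (κ.2.2 : ℕ) := by
        have := κ.2.1.2
        have := κ.2.2.2
        omega
      have h3 : u (x i) ^ (2 * D) = u (x i) ^ (κ.2.1 : ℕ) * u (x i) ^ (2 * D - κ.2.1 - κ.2.2) *
          u (x i) ^ (κ.2.2 : ℕ) := by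
        rw [← pow_add, ← pow_add, ← h2]
      rw [h3, mon]
      push_cast
      ring
    rw [e]
    exact h1
  have h1 := schwarz (t := fun i => tz p (x i)) (fun i => dvd_tz (Gd_le (hx i)))
    (fun i j hij => hxi (tz_injOn (Gd_le (hx i)) (Gd_le (hx j)) hij)) hΦ Z
    (fun j hj => by rw [hZ j hj, Int.cast_zero, mul_zero]) i
  have h2 : IsUnit (u (x i) ^ (2 * D)) := (IsUnit.of_mul_eq_one _ (huv _ (hx i)).2.1).pow _
  rw [h2.dvd_mul_left, PadicInt.pow_p_dvd_int_iff] at h1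
  exact h1

end

end Pool.Agent.Helper82.Rad
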