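import Pool.Graph.R_pool_sql_team_seeded_620a6dc7.Helper316_PR.Sum

/-!
# Multiples of a point near the origin of the real curve
-/

set_option autoImplicit false

namespace Pool.Agent.Helper82.Rad

open WeierstrassCurve Pool.Agent.Y732 Pool.Agent.Helper316_PR Filter Topology

variable {A B : ℤ}

/-- the first coordinate -/
noncomputable def xc : (EQ A B).Point → ℝ
  | .zero => 0
  | .some x _ _ => x

lemma xb_eq (P : (EQ A B).Point) : xb P = |xc P| := by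
  rcases P with _ | ⟨x, y, h⟩
  · show (0 : ℝ) = |0|
    rw [abs_zero]
  · rfl

/-- the addition of a point near the origin -/
theorem xc_add_near (z : (EQ A B).Point) (hz : z ≠ 0) {ε : ℝ} (hε : 0 < ε) :
    ∃ M : ℝ, ∀ y : (EQ A B).Point, M ≤ xb y → |xc (z + y) - xc z| ≤ ε := by
  rcases z with _ | ⟨x₁, y₁, h₁⟩
  · exact absurd rfl hz
  obtain ⟨c, hc⟩ : ∃ c : ℝ, c = 1 + |(A : ℝ)| + |(B : ℝ)| := ⟨_, rfl⟩
  obtain ⟨K₁, hK₁⟩ : ∃ K₁ : ℝ, K₁ = |3 * (x₁ : ℝ) ^ 2 + A| := ⟨_, rfl⟩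
  obtain ⟨K₂, hK₂⟩ : ∃ K₂ : ℝ, K₂ = |(B : ℝ) + (y₁ : ℝ) ^ 2 - 2 * (x₁ : ℝ) ^ 3| := ⟨_, rfl⟩
  obtain ⟨δ, hδ⟩ : ∃ δ : ℝ, δ = ε / (24 * (|(y₁ : ℝ)| + 1)) := ⟨_, rfl⟩
  have a3 := abs_nonneg (x₁ : ℝ)
  have a4 := abs_nonneg (y₁ : ℝ)
  have hc1 : 1 ≤ c := by
    rw [hc]
    have := abs_nonneg (A : ℝ)
    have := abs_nonneg (B : ℝ)
    linarith
  have hK₁0 : 0 ≤ K₁ := by rw [hK₁]; exact abs_nonneg _
  have hK₂0 : 0 ≤ K₂ := by rw [hK₂]; exact abs_nonneg _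
  have hδ0 : 0 < δ := by rw [hδ]; positivity
  obtain ⟨M, hM⟩ : ∃ M : ℝ, M = 1 + 2 * |(x₁ : ℝ)| + 12 * K₁ / ε + 12 * K₂ / ε + c / δ ^ 2 :=
    ⟨_, rfl⟩
  have m1 : 0 ≤ 12 * K₁ / ε := by positivity
  have m2 : 0 ≤ 12 * K₂ / ε := by positivity
  have m3 : 0 ≤ c / δ ^ 2 := by positivity
  refine ⟨M, fun P hP => ?_⟩
  rcases P with _ | ⟨x, y, h⟩
  · have h0 : (0 : ℝ) ≥ M := hP
    exfalso
    linarith
  have hx : M ≤ |(x : ℝ)| := hP
  have hne : x₁ ≠ x := by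
    rintro rfl
    linarith
  have hneR : (x₁ : ℝ) - x ≠ 0 := by
    rw [sub_ne_zero]
    exact_mod_cast hne
  rw [Affine.Point.add_of_X_ne hne]
  show |(((EQ A B).addX x₁ x ((EQ A B).slope x₁ x y₁ y) : ℚ) : ℝ) - (x₁ : ℝ)| ≤ ε
  have e1 : (EQ A B).a₁ = 0 := rfl
  have e2 : (EQ A B).a₂ = 0 := rfl
  have hX' : (((EQ A B).addX x₁ x ((EQ A B).slope x₁ x y₁ y) : ℚ) : ℝ) =
      (((y₁ : ℝ) - y) / (x₁ - x)) ^ 2 - x₁ - x := by
    rw [Affine.addX, Affine.slope_of_X_ne hne, e1, e2]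
    push_cast
    ring
  rw [hX']
  have he : (y : ℝ) ^ 2 = (x : ℝ) ^ 3 + A * x + B := by
    exact_mod_cast congrArg (fun z : ℚ => (z : ℝ)) ((eq_iff x y).1 h.1)
  generalize (x : ℝ) = x at hx hneR he ⊢
  generalize (y : ℝ) = y at he ⊢
  generalize (x₁ : ℝ) = x₁ at hK₁ hK₂ hM a3 hneR ⊢
  generalize (y₁ : ℝ) = y₁ at hK₂ hδ a4 ⊢
  have hnum : ((y₁ - y) / (x₁ - x)) ^ 2 - x₁ - x - x₁ =
      (x * (3 * x₁ ^ 2 + A) + (B + y₁ ^ 2 - 2 * x₁ ^ 3) - 2 * y * y₁) / (x₁ - x) ^ 2 := by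
    field_simp
    linear_combination he
  rw [hnum, abs_div, abs_of_pos (by positivity : (0 : ℝ) < (x₁ - x) ^ 2),
    div_le_iff₀ (by positivity)]
  have hx0 : 1 + 2 * |x₁| ≤ |x| := by linarith
  have hx1 : 1 ≤ |x| := by linarith
  have hxx : |x| * |x| = x ^ 2 := by rw [← sq_abs x]; ring
  have hden : x ^ 2 / 4 ≤ (x₁ - x) ^ 2 := by
    have h4 : |x| / 2 ≤ |x₁ - x| := by
      have := abs_sub_abs_le_abs_sub x x₁
      rw [abs_sub_comm] at this
      linarith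
    have h5 : (|x| / 2) ^ 2 ≤ |x₁ - x| ^ 2 := pow_le_pow_left₀ (by positivity) h4 2
    rw [sq_abs] at h5
    calc x ^ 2 / 4 = (|x| / 2) ^ 2 := by rw [div_pow, sq_abs]; norm_num
      _ ≤ _ := h5
  -- the three parts
  have t1 : |x| * K₁ ≤ ε / 12 * x ^ 2 := by
    have : 12 * K₁ / ε ≤ |x| := by linarith
    rw [div_le_iff₀ hε] at this
    rw [← hxx]
    nlinarith
  have t2 : K₂ ≤ ε / 12 * x ^ 2 := by
    have : 12 * K₂ / ε ≤ |x| := by linarith
    rw [div_le_iff₀ hε] at this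
    have h6 : |x| ≤ x ^ 2 := by rw [← hxx]; nlinarith
    nlinarith
  have hy : |y| ≤ δ * x ^ 2 := by
    apply abs_le_of_sq_le_sq' _ (by positivity) |> abs_le.2
    rw [he]
    have hx3 : 0 ≤ |x| ^ 3 := by positivity
    have b1 : x ^ 3 ≤ |x| ^ 3 := by
      rw [← abs_pow]
      exact le_abs_self _
    have b2 : (A : ℝ) * x ≤ |(A : ℝ)| * |x| ^ 3 := by
      have h4 : (A : ℝ) * x ≤ |(A : ℝ)| * |x| := by
        rw [← abs_mul]
        exact le_abs_self _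
      have h5 : |x| ≤ |x| ^ 3 := by
        calc |x| = |x| ^ 1 := (pow_one _).symm
          _ ≤ |x| ^ 3 := pow_le_pow_right₀ hx1 (by norm_num)
      exact h4.trans (mul_le_mul_of_nonneg_left h5 (abs_nonneg _))
    have b3 : (B : ℝ) ≤ |(B : ℝ)| * |x| ^ 3 := by
      have h4 : (B : ℝ) ≤ |(B : ℝ)| := le_abs_self _
      have h5 : 1 ≤ |x| ^ 3 := one_le_pow₀ hx1
      have := abs_nonneg (B : ℝ)
      nlinarith
    have b4 : x ^ 3 + A * x + B ≤ c * |x| ^ 3 := by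
      rw [hc]
      linarith
    have b5 : c * |x| ^ 3 ≤ (δ * x ^ 2) ^ 2 := by
      have h6 : c / δ ^ 2 ≤ |x| := by
        have := abs_nonneg x₁
        linarith
      rw [div_le_iff₀ (by positivity)] at h6
      have h7 : (δ * x ^ 2) ^ 2 = (|x| * δ ^ 2) * |x| ^ 3 := by
        rw [← hxx]
        ring
      rw [h7]
      exact mul_le_mul_of_nonneg_right h6 hx3
    linarith
  have t3 : 2 * |y| * |y₁| ≤ ε / 12 * x ^ 2 := by
    have h6 : 2 * |y| * |y₁| ≤ 2 * (δ * x ^ 2) * (|y₁| + 1) := by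
      have h7 : |y| * |y₁| ≤ (δ * x ^ 2) * (|y₁| + 1) :=
        mul_le_mul hy (by linarith) a4 (by positivity)
      linarith
    have h8 : 2 * (δ * x ^ 2) * (|y₁| + 1) = ε / 12 * x ^ 2 := by
      rw [hδ]
      field_simp
      ring
    linarith
  calc |x * (3 * x₁ ^ 2 + A) + (B + y₁ ^ 2 - 2 * x₁ ^ 3) - 2 * y * y₁|
      ≤ |x * (3 * x₁ ^ 2 + A)| + |(B + y₁ ^ 2 - 2 * x₁ ^ 3)| + |2 * y * y₁| := by
        have u1 := abs_sub (x * (3 * x₁ ^ 2 + A) + (B + y₁ ^ 2 - 2 * x₁ ^ 3)) (2 * y * y₁)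
        have u2 := abs_add_le (x * (3 * x₁ ^ 2 + A)) (B + y₁ ^ 2 - 2 * x₁ ^ 3)
        linarith
    _ = |x| * K₁ + K₂ + 2 * |y| * |y₁| := by
        rw [abs_mul x, hK₁, hK₂, abs_mul (2 * y), abs_mul 2 y, abs_two]
    _ ≤ ε / 4 * x ^ 2 := by linarith
    _ = ε * (x ^ 2 / 4) := by ring
    _ ≤ ε * (x₁ - x) ^ 2 := mul_le_mul_of_nonneg_left hden hε.le

/-- the first coordinate of the difference of two multiples -/
lemma diff_coord {x₁ y₁ x₂ y₂ : ℚ} (h₁ : (EQ A B).Nonsingular x₁ y₁)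
    (h₂ : (EQ A B).Nonsingular x₂ y₂) (hx : x₁ ≠ x₂) :
    xc (Affine.Point.some x₁ y₁ h₁ - Affine.Point.some x₂ y₂ h₂ : (EQ A B).Point) =
      (((y₁ : ℝ) + y₂) / (x₁ - x₂)) ^ 2 - x₁ - x₂ := by
  have hneg : -(Affine.Point.some x₂ y₂ h₂) =
      Affine.Point.some x₂ (-y₂) (by
        have := (Affine.nonsingular_neg (W' := EQ A B) x₂ y₂).2 h₂
        rwa [negY_eq] at this) := by
    rw [Affine.Point.neg_some]
    congr 1
    exact negY_eq _ _
  rw [sub_eq_add_neg, hneg, Affine.Point.add_of_X_ne hx]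
  show (((EQ A B).addX x₁ x₂ ((EQ A B).slope x₁ x₂ y₁ (-y₂)) : ℚ) : ℝ) = _
  have e1 : (EQ A B).a₁ = 0 := rfl
  have e2 : (EQ A B).a₂ = 0 := rfl
  rw [Affine.addX, Affine.slope_of_X_ne hx, e1, e2]
  push_cast
  ring

/-- there are large multiples near the origin -/
theorem exists_near (hD : 4 * A ^ 3 + 27 * B ^ 2 ≠ 0) (R : (EQ A B).Point)
    (hR : ¬ IsOfFinAddOrder R) (M : ℝ) (K : ℕ) : ∃ n : ℕ, K ≤ n ∧ M ≤ xb (n • R) := by
  by_contra hcon
  push Not at hcon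
  have hne : ∀ m : ℕ, 0 < m → m • R ≠ 0 := fun m hm h =>
    hR (isOfFinAddOrder_iff_nsmul_eq_zero.2 ⟨m, hm, h⟩)
  -- the coordinates
  have hco : ∀ n : ℕ, ∃ (x y : ℚ) (h : (EQ A B).Nonsingular x y),
      ((n + 1) * (K + 1)) • R = Affine.Point.some x y h ∧ |(x : ℝ)| ≤ M := by
    intro n
    have h1 := hne ((n + 1) * (K + 1)) (by positivity)
    have h2 := hcon ((n + 1) * (K + 1)) (by nlinarith)
    generalize ((n + 1) * (K + 1)) • R = Q at h1 h2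
    rcases Q with _ | ⟨x, y, h⟩
    · exact absurd rfl h1
    · exact ⟨x, y, h, rfl, h2.le⟩
  choose x y h hP hx using hco
  have hM0 : 0 ≤ M := (abs_nonneg _).trans (hx 0)
  have he : ∀ n, (y n : ℝ) ^ 2 = (x n : ℝ) ^ 3 + A * x n + B := fun n => by
    exact_mod_cast congrArg (fun z : ℚ => (z : ℝ)) ((eq_iff _ _).1 (h n).1)
  obtain ⟨N, hN⟩ : ∃ N : ℝ, N = M ^ 3 + |(A : ℝ)| * M + |(B : ℝ)| + 1 := ⟨_, rfl⟩
  have hN1 : 1 ≤ N := by
    rw [hN]
    have := abs_nonneg (A : ℝ)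
    have := abs_nonneg (B : ℝ)
    have : 0 ≤ M ^ 3 := by positivity
    nlinarith
  have hy : ∀ n, |(y n : ℝ)| ≤ N := by
    intro n
    have h1 : (y n : ℝ) ^ 2 ≤ N := by
      rw [he, hN]
      have b1 : (x n : ℝ) ^ 3 ≤ M ^ 3 := by
        calc (x n : ℝ) ^ 3 ≤ |(x n : ℝ)| ^ 3 := by rw [← abs_pow]; exact le_abs_self _
          _ ≤ M ^ 3 := pow_le_pow_left₀ (abs_nonneg _) (hx n) 3
      have b2 : (A : ℝ) * x n ≤ |(A : ℝ)| * M := by
        calc (A : ℝ) * x n ≤ |(A : ℝ) * x n| := le_abs_self _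
          _ = |(A : ℝ)| * |(x n : ℝ)| := abs_mul _ _
          _ ≤ _ := mul_le_mul_of_nonneg_left (hx n) (abs_nonneg _)
      have b3 : (B : ℝ) ≤ |(B : ℝ)| := le_abs_self _
      linarith
    by_contra h2
    rw [not_le] at h2
    have h3 : N < (y n : ℝ) ^ 2 := by
      rw [← sq_abs]
      nlinarith
    linarith
  -- a convergent subsequence
  obtain ⟨w, -, φ, hφ, hlim⟩ := tendsto_subseq_of_bounded (s := Set.Icc (-M) M ×ˢ Set.Icc (-N) N)
    ((Metric.isBounded_Icc _ _).prod (Metric.isBounded_Icc _ _))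
    (x := fun n => ((x n : ℝ), (y n : ℝ))) (fun n => ⟨abs_le.1 (hx n), abs_le.1 (hy n)⟩)
  have hlx : Tendsto (fun k => (x (φ k) : ℝ)) atTop (𝓝 w.1) :=
    (continuous_fst.tendsto w).comp hlim
  have hly : Tendsto (fun k => (y (φ k) : ℝ)) atTop (𝓝 w.2) :=
    (continuous_snd.tendsto w).comp hlim
  have hlx' : Tendsto (fun k => (x (φ (k + 1)) : ℝ)) atTop (𝓝 w.1) :=
    hlx.comp (tendsto_add_atTop_nat 1)
  have hly' : Tendsto (fun k => (y (φ (k + 1)) : ℝ)) atTop (𝓝 w.2) :=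
    hly.comp (tendsto_add_atTop_nat 1)
  -- the slopes
  have hxne : ∀ k, x (φ (k + 1)) ≠ x (φ k) := by
    intro k hxe
    have hlt : φ k < φ (k + 1) := hφ (Nat.lt_succ_self k)
    have h1 : ((φ (k + 1) + 1) * (K + 1)) • R = ((φ k + 1) * (K + 1)) • R ∨
        ((φ (k + 1) + 1) * (K + 1)) • R = -(((φ k + 1) * (K + 1)) • R) := by
      apply Affine.Point.eq_or_eq_neg_of_xRep_eq_xRep
      rw [hP, hP, Affine.Point.xRep_some, Affine.Point.xRep_some, hxe]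
    rcases h1 with h1 | h1
    · apply hne ((φ (k + 1) - φ k) * (K + 1)) (by
        have : 0 < φ (k + 1) - φ k := by omega
        positivity)
      have e : ((φ (k + 1) + 1) * (K + 1)) • R =
          ((φ (k + 1) - φ k) * (K + 1)) • R + ((φ k + 1) * (K + 1)) • R := by
        rw [← add_smul, ← add_mul]
        congr 2
        omega
      rw [h1] at e
      exact right_eq_add.1 e
    · apply hne ((φ (k + 1) + 1) * (K + 1) + (φ k + 1) * (K + 1)) (by positivity)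
      rw [add_smul, h1, neg_add_cancel]
  have hslope : ∀ k, ∃ s : ℝ, |s| ≤ 3 * M + 1 ∧
      s * ((x (φ (k + 1)) : ℝ) - x (φ k)) = (y (φ (k + 1)) : ℝ) + y (φ k) ∧
      s * ((y (φ (k + 1)) : ℝ) - y (φ k)) = (x (φ (k + 1)) : ℝ) ^ 2 +
        x (φ (k + 1)) * x (φ k) + (x (φ k) : ℝ) ^ 2 + A := by
    intro k
    have hlt : φ k < φ (k + 1) := hφ (Nat.lt_succ_self k)
    have hx' : (x (φ (k + 1)) : ℝ) - x (φ k) ≠ 0 := by
      rw [sub_ne_zero]
      exact_mod_cast hxne k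
    refine ⟨((y (φ (k + 1)) : ℝ) + y (φ k)) / ((x (φ (k + 1)) : ℝ) - x (φ k)), ?_, ?_, ?_⟩
    · have h1 := diff_coord (h (φ (k + 1))) (h (φ k)) (hxne k)
      rw [← hP, ← hP] at h1
      have e : ((φ (k + 1) + 1) * (K + 1)) • R - ((φ k + 1) * (K + 1)) • R =
          ((φ (k + 1) - φ k) * (K + 1)) • R := by
        rw [sub_eq_iff_eq_add, ← add_smul, ← add_mul]
        congr 2
        omega
      rw [e] at h1
      have h2 := hcon ((φ (k + 1) - φ k) * (K + 1)) (by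
        have : 1 ≤ φ (k + 1) - φ k := by omega
        nlinarith)
      rw [xb_eq, h1] at h2
      generalize ((y (φ (k + 1)) : ℝ) + y (φ k)) / ((x (φ (k + 1)) : ℝ) - x (φ k)) = s at h2 ⊢
      have h3 := (abs_lt.1 h2).2
      have h4 := (abs_le.1 (hx (φ (k + 1)))).2
      have h5 := (abs_le.1 (hx (φ k))).2
      have h6 : s ^ 2 ≤ 3 * M := by linarith
      by_contra h7
      rw [not_le] at h7
      have h8 : s ^ 2 = |s| ^ 2 := (sq_abs s).symm
      nlinarith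
    · field_simp
    · rw [div_mul_eq_mul_div, div_eq_iff hx']
      have e1 := he (φ (k + 1))
      have e2 := he (φ k)
      linear_combination e1 - e2
  choose s hs1 hs2 hs3 using hslope
  have hz : ∀ f : ℕ → ℝ, Tendsto f atTop (𝓝 0) → Tendsto (fun k => s k * f k) atTop (𝓝 0) := by
    intro f hf
    refine squeeze_zero_norm (a := fun k => (3 * M + 1) * |f k|) (fun k => ?_) ?_
    · rw [norm_mul, Real.norm_eq_abs, Real.norm_eq_abs]
      exact mul_le_mul_of_nonneg_right (hs1 k) (abs_nonneg _)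
    · have := hf.abs.const_mul (3 * M + 1)
      rwa [abs_zero, mul_zero] at this
  have g1 : Tendsto (fun k => (x (φ (k + 1)) : ℝ) - x (φ k)) atTop (𝓝 0) := by
    have := hlx'.sub hlx
    rwa [sub_self] at this
  have g2 : Tendsto (fun k => (y (φ (k + 1)) : ℝ) - y (φ k)) atTop (𝓝 0) := by
    have := hly'.sub hly
    rwa [sub_self] at this
  have g3 := hz _ g1
  have g4 := hz _ g2
  simp only [hs2] at g3
  simp only [hs3] at g4
  have y0 : w.2 + w.2 = 0 := tendsto_nhds_unique (hly'.add hly) g3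
  have x0 : w.1 ^ 2 + w.1 * w.1 + w.1 ^ 2 + A = 0 :=
    tendsto_nhds_unique (((((hlx'.pow 2).add (hlx'.mul hlx))).add (hlx.pow 2)).add_const _) g4
  have hc : w.2 ^ 2 = w.1 ^ 3 + A * w.1 + B := by
    refine tendsto_nhds_unique (hly.pow 2) ?_
    have := ((hlx.pow 3).add (hlx.const_mul (A : ℝ))).add_const (B : ℝ)
    exact this.congr fun k => (he (φ k)).symm
  apply hD
  have : (4 * (A : ℝ) ^ 3 + 27 * (B : ℝ) ^ 2) = 0 := by
    have hy0 : w.2 = 0 := by linarith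
    rw [hy0] at hc
    have hB : (B : ℝ) = -(w.1 ^ 3 + A * w.1) := by linear_combination -hc
    have hA : (A : ℝ) = -(3 * w.1 ^ 2) := by linear_combination x0
    rw [hB, hA]
    ring
  exact_mod_cast this

end Pool.Agent.Helper82.Rad
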