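import Pool.Agent.Helper82.Rad.Fun
import Pool.Agent.Helper82.Rad.RealX
import Pool.Graph.R_seed8.Y732.Quad

/-!
# The auxiliary functions do not vanish identically
-/

set_option autoImplicit false

namespace Pool.Agent.Helper82.Rad

open WeierstrassCurve Pool.Agent.Y732 Pool.Agent.Helper316_PR

variable {p : ℕ} {A B : ℤ}

section abs

variable {G : Type} [AddCommGroup G] {q : G → ℝ}

/-- the real pairing -/
lemma q_add_zsmul (hq : ∀ P Q, q (P + Q) + q (P - Q) = 2 * q P + 2 * q Q) (x Q : G) (i : ℤ) :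
    q (x + i • Q) = q x + i * (q (x + Q) - q x - q Q) + (i : ℝ) ^ 2 * q Q := by
  have h1 : prHom hq x (i • Q) = i * prHom hq x Q := by
    rw [map_zsmul, zsmul_eq_mul]
  have h2 : q (i • Q + x) - q (i • Q) - q x = i * (q (Q + x) - q Q - q x) := h1
  rw [quadratic_int hq] at h2
  rw [add_comm x, add_comm x]
  linear_combination h2

/-- the real pairing is additive -/
lemma beta_add_nsmul (hq : ∀ P Q, q (P + Q) + q (P - Q) = 2 * q P + 2 * q Q) (x R Q : G) (n : ℕ) :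
    q (x + n • R + Q) - q (x + n • R) - q Q =
      (q (x + Q) - q x - q Q) + n * (q (R + Q) - q R - q Q) := by
  have h1 : prHom hq Q (x + n • R) = prHom hq Q x + n * prHom hq Q R := by
    rw [map_add, map_nsmul, nsmul_eq_mul]
  exact h1

end abs

/-- the numerator and the height -/
lemma log_nm_le (P : (EQ A B).Point) : Real.log |(nm P : ℝ)| ≤ nh P := by
  rcases P with _ | ⟨x, y, h⟩
  · rw [← Affine.Point.zero_def, nh_zero]
    have : nm (0 : (EQ A B).Point) = 1 := rfl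
    rw [this]
    simp
  · rw [nh_some]
    have e1 : nm (Affine.Point.some x y h) = x.num := rfl
    rw [e1]
    rcases eq_or_ne x.num 0 with h0 | h0
    · rw [h0]
      simp only [Int.cast_zero, abs_zero, Real.log_zero, Int.natAbs_zero]
      apply Real.log_nonneg
      have : 1 ≤ max 0 x.den := (Nat.one_le_iff_ne_zero.2 x.den_nz).trans (le_max_right _ _)
      exact_mod_cast this
    · apply Real.log_le_log (by positivity)
      have h1 : |(x.num : ℝ)| = ((x.num.natAbs : ℕ) : ℝ) := by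
        rw [Nat.cast_natAbs, Int.cast_abs]
      rw [h1]
      exact_mod_cast le_max_left _ _

/-- the numerator in terms of the first coordinate and the denominator -/
lemma nm_eq {P : (EQ A B).Point} (hP : P ≠ 0) : (nm P : ℝ) = xc P * (dn P : ℝ) ^ 2 := by
  rcases P with _ | ⟨x, y, h⟩
  · exact absurd rfl hP
  · obtain ⟨a, b, h0, -, hx, -, -, -, hnum⟩ := dn_rep h
    have e1 : nm (Affine.Point.some x y h) = a := hnum
    have e2 : xc (Affine.Point.some x y h) = (x : ℝ) := rfl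
    rw [e1, e2]
    have h1 : (dn (Affine.Point.some x y h) : ℚ) ≠ 0 := by exact_mod_cast h0.ne'
    have h2 : (a : ℚ) = x * (dn (Affine.Point.some x y h) : ℚ) ^ 2 := by
      generalize dn (Affine.Point.some x y h) = e at hx h1 ⊢
      rw [hx]
      field_simp
    exact_mod_cast congrArg (fun z : ℚ => (z : ℝ)) h2

section bounds

variable {q : (EQ A B).Point → ℝ} {C : ℝ}

/-- upper bounds -/
lemma abs_U_le (hC : ∀ P : (EQ A B).Point, nh P ≤ q P + C) (Q x : (EQ A B).Point) (i : ℤ) :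
    |(U p Q x i : ℝ)| ≤ Real.exp (((2 * (p - 1) : ℕ) : ℝ) * (q (x + i • Q) + C)) := by
  rw [U, Int.cast_pow, abs_pow, Real.exp_nat_mul]
  apply pow_le_pow_left₀ (abs_nonneg _)
  rcases eq_or_ne (nm (x + i • Q)) 0 with h1 | h1
  · rw [h1]
    simp only [Int.cast_zero, abs_zero]
    exact (Real.exp_pos _).le
  · have h2 : (0 : ℝ) < |(nm (x + i • Q) : ℝ)| := by positivity
    rw [← Real.log_le_iff_le_exp h2]
    exact (log_nm_le _).trans (hC _)

lemma abs_V_le (hC : ∀ P : (EQ A B).Point, nh P ≤ q P + C) (Q x : (EQ A B).Point) (i : ℤ) :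
    |(V p Q x i : ℝ)| ≤ Real.exp (((2 * (p - 1) : ℕ) : ℝ) * (q (x + i • Q) + C)) := by
  have e : 4 * (p - 1) = 2 * (2 * (p - 1)) := by ring
  rw [V, Int.cast_pow, abs_pow, e, pow_mul, Real.exp_nat_mul]
  apply pow_le_pow_left₀ (by positivity)
  rw [Int.cast_natCast, abs_of_nonneg (Nat.cast_nonneg _)]
  rcases Nat.eq_zero_or_pos (dn (x + i • Q)) with h1 | h1
  · rw [h1]
    simp only [Nat.cast_zero, ne_eq, OfNat.ofNat_ne_zero, not_false_eq_true, zero_pow]
    exact (Real.exp_pos _).le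
  · have h2 : (0 : ℝ) < (dn (x + i • Q) : ℝ) ^ 2 := by positivity
    rw [← Real.log_le_iff_le_exp h2, Real.log_pow]
    exact (log_dn_le _).trans (hC _)

/-- lower bound -/
lemma V_ge (hC : ∀ P : (EQ A B).Point, q P - C ≤ nh P) (Q x : (EQ A B).Point) (i : ℤ) {X : ℝ}
    (hX : 1 ≤ X) (h0 : x + i • Q ≠ 0) (hxb : xb (x + i • Q) ≤ X) :
    Real.exp (((2 * (p - 1) : ℕ) : ℝ) * (q (x + i • Q) - (C + Real.log X))) ≤ (V p Q x i : ℝ) := by
  have e : 4 * (p - 1) = 2 * (2 * (p - 1)) := by ring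
  rw [V, Int.cast_pow, e, pow_mul, Real.exp_nat_mul]
  apply pow_le_pow_left₀ (Real.exp_pos _).le
  rw [Int.cast_natCast]
  have h1 : dn (x + i • Q) ≠ 0 := fun h => h0 (dn_eq_zero.1 h)
  have h2 : (0 : ℝ) < (dn (x + i • Q) : ℝ) ^ 2 := by positivity
  rw [← Real.le_log_iff_exp_le h2, Real.log_pow]
  have h3 := le_log_dn h0 hX hxb
  have h4 := hC (x + i • Q)
  push_cast
  linarith

/-- the upper bound for the monomials -/
lemma abs_mon_le (hC : ∀ P : (EQ A B).Point, nh P ≤ q P + C) (Q x : (EQ A B).Point)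
    {S D : ℕ} (κ : Fin S × Fin D × Fin D) :
    |(mon p Q x κ : ℝ)| ≤ Real.exp (((2 * (p - 1) : ℕ) : ℝ) *
      ((2 * D - (κ.2.2 : ℕ)) * q (x + ((κ.1 : ℕ) : ℤ) • Q) +
        (κ.2.2 : ℕ) * q (x + (((κ.1 : ℕ) : ℤ) + 1) • Q) + 2 * D * C)) := by
  rw [mon, Int.cast_mul, Int.cast_mul, Int.cast_pow, Int.cast_pow, Int.cast_pow,
    abs_mul, abs_mul, abs_pow, abs_pow, abs_pow]
  have h1 := abs_U_le (p := p) hC Q x (κ.1 : ℕ)
  have h2 := abs_V_le (p := p) hC Q x (κ.1 : ℕ)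
  have h3 := abs_V_le (p := p) hC Q x ((κ.1 : ℕ) + 1)
  have hb := κ.2.1.2
  have hc := κ.2.2.2
  generalize ((κ.2.1 : ℕ)) = b at hb ⊢
  generalize ((κ.2.2 : ℕ)) = c at hc ⊢
  obtain ⟨d, hd⟩ : ∃ d, 2 * D - b - c = d := ⟨_, rfl⟩
  have hd' : (2 * D : ℝ) - c = b + d := by
    have : 2 * D = b + d + c := by omega
    have h4 : ((2 * D : ℕ) : ℝ) = ((b + d + c : ℕ) : ℝ) := by rw [this]
    push_cast at h4
    linarith
  have hd2 : (2 * D : ℝ) = b + d + c := by linarith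
  rw [hd, hd', hd2]
  calc _ ≤ Real.exp (((2 * (p - 1) : ℕ) : ℝ) * (q (x + ((κ.1 : ℕ) : ℤ) • Q) + C)) ^ b *
        Real.exp (((2 * (p - 1) : ℕ) : ℝ) * (q (x + ((κ.1 : ℕ) : ℤ) • Q) + C)) ^ d *
        Real.exp (((2 * (p - 1) : ℕ) : ℝ) * (q (x + (((κ.1 : ℕ) : ℤ) + 1) • Q) + C)) ^ c := by
        gcongr
    _ = _ := by
        rw [← Real.exp_nat_mul, ← Real.exp_nat_mul, ← Real.exp_nat_mul, ← Real.exp_add,
          ← Real.exp_add]
        congr 1
        ring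

/-- the sum over one class -/
lemma class_eq (Q x : (EQ A B).Point) {S D : ℕ} (c : Fin S × Fin D × Fin D → ℤ) (i : Fin S)
    (d : Fin D) (hz : x + ((i : ℕ) : ℤ) • Q ≠ 0) :
    (∑ b : Fin D, (c (i, b, d) : ℝ) * (mon p Q x (i, b, d) : ℝ)) =
      (V p Q x (i : ℕ) : ℝ) ^ (2 * D - d) * (V p Q x ((i : ℕ) + 1) : ℝ) ^ (d : ℕ) *
        ∑ b : Fin D, (c (i, b, d) : ℝ) *
          (xc (x + ((i : ℕ) : ℤ) • Q) ^ (2 * (p - 1))) ^ (b : ℕ) := by
  rw [Finset.mul_sum]
  refine Finset.sum_congr rfl fun b _ => ?_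
  have h1 : (U p Q x (i : ℕ) : ℝ) =
      xc (x + ((i : ℕ) : ℤ) • Q) ^ (2 * (p - 1)) * (V p Q x (i : ℕ) : ℝ) := by
    have e : 4 * (p - 1) = 2 * (2 * (p - 1)) := by ring
    have e1 : (U p Q x (i : ℕ) : ℝ) = (nm (x + ((i : ℕ) : ℤ) • Q) : ℝ) ^ (2 * (p - 1)) := by
      rw [U, Int.cast_pow]
    have e2 : (V p Q x (i : ℕ) : ℝ) =
        ((dn (x + ((i : ℕ) : ℤ) • Q) : ℝ) ^ 2) ^ (2 * (p - 1)) := by
      rw [V, Int.cast_pow, Int.cast_natCast, e, pow_mul]
    rw [e1, e2, nm_eq hz, mul_pow]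
  have h2 : 2 * D - (d : ℕ) = (b : ℕ) + (2 * D - (b : ℕ) - (d : ℕ)) := by
    have := b.2
    have := d.2
    omega
  rw [mon]
  push_cast
  rw [h1, h2, pow_add, mul_pow]
  ring

end bounds

end Pool.Agent.Helper82.Rad
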