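import Pool.Agent.Helper82.Rad.Core
import Pool.Graph.R_pool_sql_team_seeded_620a6dc7.Helper316_PR.Main

/-!
# Points which are orthogonal for the `p`-adic height
-/

set_option autoImplicit false

namespace Pool.Agent.Helper82.Rad

open WeierstrassCurve Pool.Agent.Y732 Pool.Agent.Helper316_PR

variable {p : ℕ} [hp : Fact p.Prime] {A B : ℤ}

lemma points_inj {G : Type} [AddCommGroup G] {r : ℕ} {P : Fin r → G}
    (hP : LinearIndependent ℤ P) {n n' : Fin r → ℤ}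
    (h : ∑ j, n j • P j = ∑ j, n' j • P j) : n = n' := by
  have h1 : ∑ j, (n j - n' j) • P j = 0 := by
    simp only [sub_smul, Finset.sum_sub_distrib, h, sub_self]
  funext j
  have := Fintype.linearIndependent_iff.1 hP _ h1 j
  linarith

theorem main (hp3 : 3 ≤ p) (hD : 4 * A ^ 3 + 27 * B ^ 2 ≠ 0)
    {h : (EQ A B).Point → ℚ_[p]} (hh : IsHeight p A B h)
    {q : (EQ A B).Point → ℝ} (hq0 : ∀ P, 0 ≤ q P)
    (hq : ∀ P Q, q (P + Q) + q (P - Q) = 2 * q P + 2 * q Q) {C : ℝ} (hC0 : 0 ≤ C)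
    (hCu : ∀ P : (EQ A B).Point, nh P ≤ q P + C) (hCl : ∀ P : (EQ A B).Point, q P - C ≤ nh P)
    {P : Fin 4 → (EQ A B).Point} (hP : LinearIndependent ℤ P) (hPG : ∀ j, P j ∈ Gd A B p)
    {Q : (EQ A B).Point} (hQ : Q ∈ Gd A B p) (horth : ∀ j, h (Q + P j) = h Q + h (P j))
    {R R' : (EQ A B).Point} (hRR' : ∀ a b : ℤ, a • R + b • R' = 0 → a = 0 ∧ b = 0)
    (hspan : ∀ a b : ℤ, ∃ n : Fin 4 → ℤ, ∑ j, n j • P j = a • R + b • R')
    (hβ : 0 < q (R + Q) - q R - q Q) : False := by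
  classical
  -- the constants
  obtain ⟨s, hs⟩ : ∃ s : ℝ, s = ((2 * (p - 1) : ℕ) : ℝ) := ⟨_, rfl⟩
  obtain ⟨c₁, hc₁⟩ : ∃ c₁ : ℝ, c₁ = 2 * 2 ^ 4 * ∑ j, q (P j) + 2 * q Q + C := ⟨_, rfl⟩
  have hc₁0 : 0 ≤ c₁ := by
    rw [hc₁]
    have h1 := Finset.sum_nonneg fun j (_ : j ∈ Finset.univ) => hq0 (P j)
    have h2 := hq0 Q
    positivity
  obtain ⟨c₂, hc₂⟩ : ∃ c₂ : ℝ, c₂ = 2 * s * c₁ := ⟨_, rfl⟩
  have hs0 : 0 ≤ s := by rw [hs]; exact Nat.cast_nonneg _
  have hc₂0 : 0 ≤ c₂ := by rw [hc₂]; positivity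
  have hl2 : 0 < Real.log 2 := Real.log_pos (by norm_num)
  obtain ⟨s₀, hs₀⟩ : ∃ s₀ : ℕ, 13 * (6 + 13 * c₂) < s₀ * Real.log 2 := by
    obtain ⟨n, hn⟩ := exists_nat_gt (13 * (6 + 13 * c₂) / Real.log 2)
    exact ⟨n, (div_lt_iff₀ hl2).1 hn⟩
  have hs₀1 : 1 ≤ s₀ := by
    rcases Nat.eq_zero_or_pos s₀ with h0 | h0
    · rw [h0, Nat.cast_zero, zero_mul] at hs₀
      linarith
    · exact h0
  obtain ⟨S, hS⟩ : ∃ S : ℕ, S = s₀ ^ 2 := ⟨_, rfl⟩
  obtain ⟨D, hDd⟩ : ∃ D : ℕ, D = 13 * s₀ ^ 3 := ⟨_, rfl⟩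
  have hS1 : 1 ≤ S := by rw [hS]; exact Nat.one_le_pow _ _ hs₀1
  have hD1 : 1 ≤ D := by
    rw [hDd]
    have := Nat.one_le_pow 3 _ hs₀1
    omega
  obtain ⟨good, hgood⟩ : ∃ good : (Fin 4 → ℤ) → Prop,
      ∀ n, good n ↔ ∀ m : ℤ, ∑ j, n j • P j ≠ m • Q := ⟨_, fun _ => Iff.rfl⟩
  -- Siegel's lemma
  obtain ⟨H, hH⟩ : ∃ H : ℝ, H = Real.exp (2 * s * c₁ * D * ((S : ℝ) + 1) ^ 2) := ⟨_, rfl⟩
  have hH1 : 1 ≤ H := by
    rw [hH]
    exact Real.one_le_exp (by positivity)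
  have hcardβ : Fintype.card (Fin S × Fin D × Fin D) = S * (D * D) := by
    rw [Fintype.card_prod, Fintype.card_prod, Fintype.card_fin, Fintype.card_fin]
  have hβ0 : 0 < Fintype.card (Fin S × Fin D × Fin D) := by
    rw [hcardβ]
    positivity
  have hαβ : 2 * Fintype.card {n // n ∈ (box 4 S).filter good} ≤
      Fintype.card (Fin S × Fin D × Fin D) := by
    rw [Fintype.card_coe, hcardβ]
    have h1 := Finset.card_le_card (Finset.filter_subset good (box 4 S))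
    rw [card_box] at h1
    have h2 : 2 * (2 * S + 1) ^ 4 ≤ S * (D * D) := by
      have h3 : 2 * S + 1 ≤ 3 * S := by omega
      calc 2 * (2 * S + 1) ^ 4 ≤ 2 * (3 * S) ^ 4 :=
            Nat.mul_le_mul_left _ (Nat.pow_le_pow_left h3 4)
        _ = 162 * s₀ ^ 8 := by rw [hS]; ring
        _ ≤ 169 * s₀ ^ 8 := Nat.mul_le_mul_right _ (by norm_num)
        _ = S * (D * D) := by rw [hS, hDd]; ring
    omega
  obtain ⟨c, hc0, hc1, hc2⟩ := siegel (α := {n // n ∈ (box 4 S).filter good})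
    (β := Fin S × Fin D × Fin D) (fun n κ => mon p Q (∑ j, n.1 j • P j) κ) hαβ hβ0 hH1
    (fun n κ => by
      rw [hH]
      exact abs_aux_le hq0 hq hC0 hCu P Q hs hc₁ le_rfl (Finset.mem_filter.1 n.2).1 κ)
  -- the values at the points of the boxes
  have key : ∀ T : ℕ, S ≤ T → ∀ n ∈ box 4 T, good n → aux p Q c (∑ j, n j • P j) = 0 := by
    intro T hT
    induction T, hT using Nat.le_induction with
    | base =>
      intro n hn hg
      have h1 := hc1 ⟨n, Finset.mem_filter.2 ⟨hn, hg⟩⟩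
      rw [aux]
      rw [← h1]
      exact Finset.sum_congr rfl fun κ _ => mul_comm _ _
    | succ T hT ih =>
      intro n hn hg
      have hdvd := aux_dvd (ι := {n // good n}) (x := fun n => ∑ j, n.1 j • P j) (Q := Q) hp3 hh
        (fun n => (Gd A B p).sum_mem fun j _ => (Gd A B p).zsmul_mem (hPG j) _)
        (fun n n' hnn' => Subtype.ext (points_inj hP hnn')) hQ
        (fun n m => (hgood _).1 n.2 m) (fun n m => orth_all hh.1 horth n.1 m) c
        ((box 4 T).subtype good) (fun n hn => ih n.1 (Finset.mem_subtype.1 hn) n.2) ⟨n, hg⟩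
      rw [Finset.card_subtype] at hdvd
      have hcard := card_good_ge hP Q T good hgood
      have h1 : (p : ℤ) ^ (T ^ 4) ∣ aux p Q c (∑ j, n j • P j) :=
        (pow_dvd_pow _ hcard).trans hdvd
      have h2 : |(aux p Q c (∑ j, n j • P j) : ℝ)| < (p : ℝ) ^ (T ^ 4) := by
        refine lt_of_le_of_lt ?_ (numeric' (p := p) hs₀1 (hS ▸ hT) hc₂0 hs₀ (by omega))
        rw [← hS, ← hDd]
        have h3 : ∀ κ ∈ (Finset.univ : Finset (Fin S × Fin D × Fin D)),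
            |((c κ * mon p Q (∑ j, n j • P j) κ : ℤ) : ℝ)| ≤
            ((S * (D * D) : ℕ) : ℝ) * Real.exp (c₂ * (D : ℝ) * ((S : ℝ) + 1) ^ 2) *
              Real.exp (c₂ * (D : ℝ) * (((T + 1 : ℕ) : ℝ) + 1) ^ 2) := by
          intro κ _
          rw [Int.cast_mul, abs_mul]
          refine mul_le_mul ?_ ?_ (abs_nonneg _) (by positivity)
          · have := hc2 κ
            rw [hcardβ, hH, ← hc₂] at this
            exact this
          · have := abs_aux_le (p := p) hq0 hq hC0 hCu P Q hs hc₁ (hT.trans (Nat.le_succ T)) hn κ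
            rw [← hc₂] at this
            exact this
        rw [aux, Int.cast_sum]
        refine (Finset.abs_sum_le_sum_abs _ _).trans ((Finset.sum_le_sum h3).trans ?_)
        rw [Finset.sum_const, nsmul_eq_mul, Finset.card_univ, hcardβ]
      refine Int.eq_zero_of_abs_lt_dvd h1 ?_
      exact_mod_cast h2
  -- the contradiction
  obtain ⟨a, b, hab, hne⟩ := exists_aux_ne_zero hD (by omega : 2 ≤ p) hq0 hq hC0 hCu hCl hRR' hβ
    c hc0
  obtain ⟨n, hn⟩ := hspan a b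
  rw [← hn] at hab hne
  obtain ⟨T, hT⟩ : ∃ T : ℕ, T = S + ∑ j, (n j).natAbs := ⟨_, rfl⟩
  refine hne (key T (by omega) n (mem_box.2 fun j => ?_) ((hgood n).2 hab))
  have h1 : (n j).natAbs ≤ ∑ j, (n j).natAbs :=
    Finset.single_le_sum (f := fun j => (n j).natAbs) (fun _ _ => Nat.zero_le _)
      (Finset.mem_univ j)
  rw [Int.abs_eq_natAbs, hT]
  exact_mod_cast h1.trans (Nat.le_add_left _ _)

end Pool.Agent.Helper82.Rad
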