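import Pool.Agent.Helper82.Rad.Indep

/-!
# The auxiliary functions do not vanish identically: the main estimate
-/

set_option autoImplicit false

namespace Pool.Agent.Helper82.Rad

open WeierstrassCurve Pool.Agent.Y732 Pool.Agent.Helper316_PR

variable {p : ℕ} {A B : ℤ}

lemma xb_neg (P : (EQ A B).Point) : xb (-P) = xb P := by
  rcases P with _ | ⟨x, y, h⟩
  · rfl
  · rw [Affine.Point.neg_some]
    rfl

lemma filter_class {S D : ℕ} (i₀ : Fin S) (d₀ : Fin D) (f : Fin S × Fin D × Fin D → ℝ) :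
    ∑ κ ∈ Finset.univ.filter (fun κ : Fin S × Fin D × Fin D => κ.1 = i₀ ∧ κ.2.2 = d₀), f κ =
      ∑ b : Fin D, f (i₀, b, d₀) := by
  have h1 : Finset.univ.filter (fun κ : Fin S × Fin D × Fin D => κ.1 = i₀ ∧ κ.2.2 = d₀) =
      Finset.univ.image (fun b : Fin D => (i₀, b, d₀)) := by
    ext ⟨i, b, d⟩
    simp only [Finset.mem_filter, Finset.mem_univ, true_and, Finset.mem_image, Prod.mk.injEq]
    constructor
    · rintro ⟨rfl, rfl⟩
      exact ⟨b, rfl, rfl, rfl⟩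
    · rintro ⟨_, rfl, -, rfl⟩
      exact ⟨rfl, rfl⟩
  rw [h1, Finset.sum_image]
  intro b _ b' _ h
  simp only [Prod.mk.injEq, and_true, true_and] at h
  exact h

/-- the auxiliary function does not vanish at large multiples near the origin -/
theorem aux_ne_zero (hD : 4 * A ^ 3 + 27 * B ^ 2 ≠ 0) (hp2 : 2 ≤ p)
    {q : (EQ A B).Point → ℝ} (hq0 : ∀ P, 0 ≤ q P)
    (hq : ∀ P Q, q (P + Q) + q (P - Q) = 2 * q P + 2 * q Q) {C : ℝ} (hC0 : 0 ≤ C)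
    (hCu : ∀ P : (EQ A B).Point, nh P ≤ q P + C) (hCl : ∀ P : (EQ A B).Point, q P - C ≤ nh P)
    {Q R x₀ : (EQ A B).Point} (hR : ¬ IsOfFinAddOrder R) (hβ : 0 < q (R + Q) - q R - q Q)
    {S D : ℕ} (c : Fin S × Fin D × Fin D → ℤ) (i₀ : Fin S) (d₀ : Fin D)
    (hmax : ∀ κ, c κ ≠ 0 → 2 * D * (κ.1 : ℕ) + (κ.2.2 : ℕ) ≤ 2 * D * (i₀ : ℕ) + (d₀ : ℕ))
    (hz : x₀ + ((i₀ : ℕ) : ℤ) • Q ≠ 0) (hz' : x₀ + (((i₀ : ℕ) : ℤ) + 1) • Q ≠ 0)
    (hpoly : ∑ b : Fin D, (c (i₀, b, d₀) : ℝ) *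
      (xc (x₀ + ((i₀ : ℕ) : ℤ) • Q) ^ (2 * (p - 1))) ^ (b : ℕ) ≠ 0) (K : ℕ) :
    ∃ n : ℕ, K ≤ n ∧ aux p Q c (x₀ + n • R) ≠ 0 := by
  obtain ⟨z, hze⟩ : ∃ z, z = x₀ + ((i₀ : ℕ) : ℤ) • Q := ⟨_, rfl⟩
  obtain ⟨z', hze'⟩ : ∃ z', z' = x₀ + (((i₀ : ℕ) : ℤ) + 1) • Q := ⟨_, rfl⟩
  rw [← hze] at hz hpoly
  rw [← hze'] at hz'
  -- continuity
  obtain ⟨F, hF⟩ : ∃ F : ℝ → ℝ, F = fun t => ∑ b : Fin D, (c (i₀, b, d₀) : ℝ) *
      (t ^ (2 * (p - 1))) ^ (b : ℕ) := ⟨_, rfl⟩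
  have hFc : Continuous F := by
    rw [hF]
    fun_prop
  have hF0 : F (xc z) ≠ 0 := by
    rw [hF]
    exact hpoly
  obtain ⟨η, hη⟩ : ∃ η : ℝ, η = |F (xc z)| / 2 := ⟨_, rfl⟩
  have hη0 : 0 < η := by
    rw [hη]
    have := abs_pos.2 hF0
    linarith
  obtain ⟨ε, hε, hεF⟩ : ∃ ε : ℝ, 0 < ε ∧ ∀ t, |t - xc z| ≤ ε → η ≤ |F t| := by
    obtain ⟨δ, hδ, h1⟩ := Metric.continuousAt_iff.1 (hFc.continuousAt (x := xc z)) η hη0
    refine ⟨δ / 2, by linarith, fun t ht => ?_⟩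
    have h2 := h1 (x := t) (by rw [Real.dist_eq]; linarith)
    rw [Real.dist_eq] at h2
    have h3 := abs_sub_abs_le_abs_sub (F (xc z)) (F t)
    rw [abs_sub_comm] at h3
    linarith
  obtain ⟨M₁, hM₁⟩ := xc_add_near z hz hε
  obtain ⟨M₂, hM₂⟩ := xc_add_near z hz one_pos
  obtain ⟨M₃, hM₃⟩ := xc_add_near z' hz' one_pos
  -- the constants
  obtain ⟨X, hX⟩ : ∃ X : ℝ, X = 1 + |xc z| + |xc z'| := ⟨_, rfl⟩
  have hX1 : 1 ≤ X := by
    rw [hX]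
    have := abs_nonneg (xc z)
    have := abs_nonneg (xc z')
    linarith
  obtain ⟨s, hs⟩ : ∃ s : ℝ, s = ((2 * (p - 1) : ℕ) : ℝ) := ⟨_, rfl⟩
  have hs0 : 0 < s := by
    rw [hs]
    have : 0 < 2 * (p - 1) := by omega
    exact_mod_cast this
  obtain ⟨C', hC'⟩ : ∃ C' : ℝ, C' = C + Real.log X := ⟨_, rfl⟩
  have hC'0 : 0 ≤ C' := by
    rw [hC']
    have := Real.log_nonneg hX1
    linarith
  obtain ⟨K₁, hK₁⟩ : ∃ K₁ : ℝ, K₁ = s * (2 * D * ((S : ℝ) + 1) ^ 2 * q Q + 2 * D * C) := ⟨_, rfl⟩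
  obtain ⟨K₂, hK₂⟩ : ∃ K₂ : ℝ, K₂ = s * (2 * D * C') := ⟨_, rfl⟩
  obtain ⟨T, hT⟩ : ∃ T : ℝ, T = ∑ κ, |(c κ : ℝ)| := ⟨_, rfl⟩
  have hT0 : 0 ≤ T := by
    rw [hT]
    exact Finset.sum_nonneg fun κ _ => abs_nonneg _
  obtain ⟨β₁, hβ₁⟩ : ∃ β₁ : ℝ, β₁ = T / η * Real.exp (K₁ + K₂) / s := ⟨_, rfl⟩
  have hβ₁0 : 0 ≤ β₁ := by
    rw [hβ₁]
    positivity
  obtain ⟨β₀, hβ₀⟩ : ∃ β₀ : ℝ, β₀ = q (x₀ + Q) - q x₀ - q Q := ⟨_, rfl⟩
  obtain ⟨K', hK'⟩ := exists_nat_gt ((β₁ - β₀) / (q (R + Q) - q R - q Q))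
  rw [div_lt_iff₀ hβ] at hK'
  -- the choice of `n`
  obtain ⟨n, hn1, hn2⟩ := exists_near hD R hR
    (max (max M₁ (max M₂ M₃)) (max (xb z + 1) (xb z' + 1))) (max K K')
  refine ⟨n, (le_max_left _ _).trans hn1, ?_⟩
  have g1 : M₁ ≤ xb (n • R) := ((le_max_left _ _).trans (le_max_left _ _)).trans hn2
  have g2 : M₂ ≤ xb (n • R) :=
    (((le_max_left _ _).trans (le_max_right _ _)).trans (le_max_left _ _)).trans hn2
  have g3 : M₃ ≤ xb (n • R) :=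
    (((le_max_right _ _).trans (le_max_right _ _)).trans (le_max_left _ _)).trans hn2
  have g4 : xb z + 1 ≤ xb (n • R) := ((le_max_left _ _).trans (le_max_right _ _)).trans hn2
  have g5 : xb z' + 1 ≤ xb (n • R) := ((le_max_right _ _).trans (le_max_right _ _)).trans hn2
  obtain ⟨x, hx⟩ : ∃ x, x = x₀ + n • R := ⟨_, rfl⟩
  rw [← hx]
  have ez : x + ((i₀ : ℕ) : ℤ) • Q = z + n • R := by rw [hx, hze]; abel
  have ez' : x + (((i₀ : ℕ) : ℤ) + 1) • Q = z' + n • R := by rw [hx, hze']; abel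
  have nz : x + ((i₀ : ℕ) : ℤ) • Q ≠ 0 := by
    rw [ez]
    intro h
    rw [← neg_eq_of_add_eq_zero_right h, xb_neg] at g4
    linarith
  have nz' : x + (((i₀ : ℕ) : ℤ) + 1) • Q ≠ 0 := by
    rw [ez']
    intro h
    rw [← neg_eq_of_add_eq_zero_right h, xb_neg] at g5
    linarith
  have bz : xb (x + ((i₀ : ℕ) : ℤ) • Q) ≤ X := by
    rw [xb_eq, ez, hX]
    have h1 := hM₂ _ g2
    have h2 := abs_sub_abs_le_abs_sub (xc (z + n • R)) (xc z)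
    have := abs_nonneg (xc z')
    linarith
  have bz' : xb (x + (((i₀ : ℕ) : ℤ) + 1) • Q) ≤ X := by
    rw [xb_eq, ez', hX]
    have h1 := hM₃ _ g3
    have h2 := abs_sub_abs_le_abs_sub (xc (z' + n • R)) (xc z')
    have := abs_nonneg (xc z)
    linarith
  have hFx : η ≤ |F (xc (x + ((i₀ : ℕ) : ℤ) • Q))| := by
    rw [ez]
    exact hεF _ (hM₁ _ g1)
  -- the pairing with `Q`
  obtain ⟨β, hβe⟩ : ∃ β : ℝ, β = q (x + Q) - q x - q Q := ⟨_, rfl⟩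
  have hββ : β₁ ≤ β := by
    have h1 := beta_add_nsmul hq x₀ R Q n
    rw [← hx, ← hβe, ← hβ₀] at h1
    have h2 : (K' : ℝ) ≤ n := by exact_mod_cast (le_max_right _ _).trans hn1
    rw [h1]
    nlinarith
  have hβ0 : 0 ≤ β := hβ₁0.trans hββ
  have hqx : ∀ i : ℤ, q (x + i • Q) = q x + i * β + (i : ℝ) ^ 2 * q Q := by
    intro i
    rw [hβe]
    exact q_add_zsmul hq x Q i
  obtain ⟨E, hE⟩ : ∃ E : ℝ, E = s * (2 * D * q x) := ⟨_, rfl⟩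
  obtain ⟨m₀, hm₀⟩ : ∃ m₀ : ℝ, m₀ = 2 * D * (i₀ : ℕ) + (d₀ : ℕ) := ⟨_, rfl⟩
  have hd₀ : ((d₀ : ℕ) : ℝ) ≤ D := by exact_mod_cast d₀.2.le
  -- the main class
  have hmain : η * Real.exp (E + s * (m₀ * β) - K₂) ≤
      |∑ b : Fin D, (c (i₀, b, d₀) : ℝ) * (mon p Q x (i₀, b, d₀) : ℝ)| := by
    rw [class_eq Q x c i₀ d₀ nz, abs_mul, abs_mul, abs_pow, abs_pow]
    have v1 := V_ge (p := p) hCl Q x (i₀ : ℕ) hX1 nz bz
    have v2 := V_ge (p := p) hCl Q x ((i₀ : ℕ) + 1) hX1 nz' bz'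
    rw [← hs, ← hC'] at v1 v2
    have v1' := v1.trans (le_abs_self _)
    have v2' := v2.trans (le_abs_self _)
    have v3 : |∑ b : Fin D, (c (i₀, b, d₀) : ℝ) *
        (xc (x + ((i₀ : ℕ) : ℤ) • Q) ^ (2 * (p - 1))) ^ (b : ℕ)| =
        |F (xc (x + ((i₀ : ℕ) : ℤ) • Q))| := by rw [hF]
    rw [v3, mul_comm η]
    refine mul_le_mul ?_ hFx hη0.le (by positivity)
    calc Real.exp (E + s * (m₀ * β) - K₂)
        ≤ Real.exp (((2 * D - (d₀ : ℕ) : ℕ) : ℝ) *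
            (s * (q (x + ((i₀ : ℕ) : ℤ) • Q) - C')) +
            ((d₀ : ℕ) : ℝ) * (s * (q (x + (((i₀ : ℕ) : ℤ) + 1) • Q) - C'))) := by
          apply Real.exp_le_exp.2
          have h1 : ((2 * D - (d₀ : ℕ) : ℕ) : ℝ) = 2 * D - (d₀ : ℕ) := by
            rw [Nat.cast_sub (by have := d₀.2; omega)]
            push_cast
            ring
          rw [h1, hqx, hqx, hE, hm₀, hK₂]
          push_cast
          have h2 : 0 ≤ s * (((2 * D - (d₀ : ℕ)) * ((i₀ : ℕ) : ℝ) ^ 2 +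
              (d₀ : ℕ) * (((i₀ : ℕ) : ℝ) + 1) ^ 2) * q Q) := by
            have h3 : (0 : ℝ) ≤ 2 * D - (d₀ : ℕ) := by
              have : (0 : ℝ) ≤ D := Nat.cast_nonneg _
              linarith
            have := hq0 Q
            positivity
          nlinarith
      _ = Real.exp (s * (q (x + ((i₀ : ℕ) : ℤ) • Q) - C')) ^ (2 * D - (d₀ : ℕ)) *
            Real.exp (s * (q (x + (((i₀ : ℕ) : ℤ) + 1) • Q) - C')) ^ (d₀ : ℕ) := by
          rw [Real.exp_add, Real.exp_nat_mul, Real.exp_nat_mul]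
      _ ≤ _ := mul_le_mul (pow_le_pow_left₀ (Real.exp_pos _).le v1' _)
          (pow_le_pow_left₀ (Real.exp_pos _).le v2' _) (by positivity) (by positivity)
  -- the other classes
  have hother : |∑ κ ∈ Finset.univ.filter
      (fun κ : Fin S × Fin D × Fin D => ¬ (κ.1 = i₀ ∧ κ.2.2 = d₀)),
        (c κ : ℝ) * (mon p Q x κ : ℝ)| ≤ T * Real.exp (E + s * ((m₀ - 1) * β) + K₁) := by
    refine (Finset.abs_sum_le_sum_abs _ _).trans ?_
    rw [hT, Finset.sum_mul]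
    refine (Finset.sum_le_sum (g := fun κ => |(c κ : ℝ)| *
      Real.exp (E + s * ((m₀ - 1) * β) + K₁)) fun κ hκ => ?_).trans
      (Finset.sum_le_sum_of_subset_of_nonneg (Finset.filter_subset _ _)
        fun κ _ _ => mul_nonneg (abs_nonneg _) (Real.exp_pos _).le)
    rw [abs_mul]
    rcases eq_or_ne (c κ) 0 with h0 | h0
    · rw [h0]
      simp
    refine mul_le_mul_of_nonneg_left ?_ (abs_nonneg _)
    refine (abs_mon_le hCu Q x κ).trans (Real.exp_le_exp.2 ?_)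
    rw [← hs, hqx, hqx]
    have h1 := hmax κ h0
    have hκ' := (Finset.mem_filter.1 hκ).2
    have b1 := κ.1.2
    have b2 := κ.2.2.2
    have hlt : 2 * D * (κ.1 : ℕ) + (κ.2.2 : ℕ) + 1 ≤ 2 * D * (i₀ : ℕ) + (d₀ : ℕ) := by
      rcases h1.lt_or_eq with h2 | h2
      · exact h2
      · exfalso
        apply hκ'
        have hd := d₀.2
        have h3 : (κ.1 : ℕ) = (i₀ : ℕ) := by
          rcases lt_trichotomy (κ.1 : ℕ) (i₀ : ℕ) with h4 | h4 | h4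
          · have : 2 * D * ((κ.1 : ℕ) + 1) ≤ 2 * D * (i₀ : ℕ) := Nat.mul_le_mul_left _ h4
            rw [mul_add] at this
            omega
          · exact h4
          · have : 2 * D * ((i₀ : ℕ) + 1) ≤ 2 * D * (κ.1 : ℕ) := Nat.mul_le_mul_left _ h4
            rw [mul_add] at this
            omega
        rw [h3] at h2
        exact ⟨Fin.ext h3, Fin.ext (by omega)⟩
    have hltR : 2 * (D : ℝ) * ((κ.1 : ℕ) : ℝ) + ((κ.2.2 : ℕ) : ℝ) ≤ m₀ - 1 := by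
      rw [hm₀]
      have : ((2 * D * (κ.1 : ℕ) + (κ.2.2 : ℕ) + 1 : ℕ) : ℝ) ≤
        ((2 * D * (i₀ : ℕ) + (d₀ : ℕ) : ℕ) : ℝ) := by exact_mod_cast hlt
      push_cast at this
      linarith
    have c1 : ((κ.1 : ℕ) : ℝ) ≤ S := by exact_mod_cast b1.le
    have c2 : ((κ.2.2 : ℕ) : ℝ) ≤ D := by exact_mod_cast b2.le
    have c3 : (0 : ℝ) ≤ ((κ.1 : ℕ) : ℝ) := Nat.cast_nonneg _
    have c4 : (0 : ℝ) ≤ ((κ.2.2 : ℕ) : ℝ) := Nat.cast_nonneg _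
    push_cast
    rw [hE, hK₁]
    generalize ((κ.1 : ℕ) : ℝ) = i at hltR c1 c3 ⊢
    generalize ((κ.2.2 : ℕ) : ℝ) = d at hltR c2 c4 ⊢
    have hDD : (0 : ℝ) ≤ D := Nat.cast_nonneg _
    have hqQ := hq0 Q
    have e1 : (2 * D * i + d) * β ≤ (m₀ - 1) * β := mul_le_mul_of_nonneg_right hltR hβ0
    have e2 : i ^ 2 ≤ ((S : ℝ) + 1) ^ 2 := pow_le_pow_left₀ c3 (by linarith) 2
    have e3 : (i + 1) ^ 2 ≤ ((S : ℝ) + 1) ^ 2 := pow_le_pow_left₀ (by linarith) (by linarith) 2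
    have e4 : (2 * D - d) * i ^ 2 + d * (i + 1) ^ 2 ≤ 2 * D * ((S : ℝ) + 1) ^ 2 := by
      have f1 : (2 * D - d) * i ^ 2 ≤ (2 * D - d) * ((S : ℝ) + 1) ^ 2 :=
        mul_le_mul_of_nonneg_left e2 (by linarith)
      have f2 : d * (i + 1) ^ 2 ≤ d * ((S : ℝ) + 1) ^ 2 := mul_le_mul_of_nonneg_left e3 c4
      linarith
    have e5 := mul_le_mul_of_nonneg_right e4 hqQ
    have e6 : s * ((2 * D - d) * (q x + i * β + i ^ 2 * q Q) +
        d * (q x + (i + 1) * β + (i + 1) ^ 2 * q Q) + 2 * D * C) =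
        s * (2 * D * q x) + s * ((2 * D * i + d) * β) +
          s * (((2 * D - d) * i ^ 2 + d * (i + 1) ^ 2) * q Q + 2 * D * C) := by ring
    rw [e6]
    have e7 := mul_le_mul_of_nonneg_left e1 hs0.le
    have e8 : s * (((2 * D - d) * i ^ 2 + d * (i + 1) ^ 2) * q Q + 2 * D * C) ≤
        s * (2 * D * ((S : ℝ) + 1) ^ 2 * q Q + 2 * D * C) :=
      mul_le_mul_of_nonneg_left (by linarith) hs0.le
    linarith
  -- the conclusion
  intro haux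
  have h0 : ∑ κ, (c κ : ℝ) * (mon p Q x κ : ℝ) = 0 := by
    have : ((aux p Q c x : ℤ) : ℝ) = 0 := by rw [haux, Int.cast_zero]
    rw [aux] at this
    push_cast at this
    exact this
  rw [← Finset.sum_filter_add_sum_filter_not Finset.univ
    (fun κ : Fin S × Fin D × Fin D => κ.1 = i₀ ∧ κ.2.2 = d₀), filter_class] at h0
  have h1 : η * Real.exp (E + s * (m₀ * β) - K₂) ≤ T * Real.exp (E + s * ((m₀ - 1) * β) + K₁) := by
    refine hmain.trans (le_trans (le_of_eq ?_) hother)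
    rw [← abs_neg]
    congr 1
    linarith
  have h2 : E + s * (m₀ * β) - K₂ = (E + s * ((m₀ - 1) * β) + K₁) + (s * β - (K₁ + K₂)) := by ring
  rw [h2, Real.exp_add, ← mul_assoc, mul_comm η, mul_assoc, mul_comm T] at h1
  have h3 := le_of_mul_le_mul_left h1 (Real.exp_pos _)
  rw [Real.exp_sub, ← mul_div_assoc, div_le_iff₀ (Real.exp_pos _)] at h3
  have h4 : s * β + 1 ≤ Real.exp (s * β) := Real.add_one_le_exp _
  have h5 : T / η * Real.exp (K₁ + K₂) ≤ s * β := by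
    have h6 : s * β₁ = T / η * Real.exp (K₁ + K₂) := by
      rw [hβ₁]
      field_simp
    rw [← h6]
    exact mul_le_mul_of_nonneg_left hββ hs0.le
  have h7 : T * Real.exp (K₁ + K₂) ≤ η * (s * β) := by
    have h8 : η * (T / η * Real.exp (K₁ + K₂)) = T * Real.exp (K₁ + K₂) := by
      field_simp
    rw [← h8]
    exact mul_le_mul_of_nonneg_left h5 hη0.le
  nlinarith

end Pool.Agent.Helper82.Rad
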