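import Pool.Agent.Helper82.Rad.Final

/-!
# The kernel of the matrix of the `p`-adic heights
-/

set_option autoImplicit false

namespace Pool.Agent.Helper82.Rad

open WeierstrassCurve Pool.Agent.Y732 Pool.Agent.Helper316_PR

section abs

variable {G : Type} [AddCommGroup G] {K : Type*} [Field K] [CharZero K]

lemma two_self {h : G → K} (hq : ∀ P Q, h (P + Q) + h (P - Q) = 2 * h P + 2 * h Q) (Q : G) :
    h (Q + Q) - h Q - h Q = 2 * h Q := by
  have h3 := hq Q Q
  have h5 := hq 0 0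
  rw [add_zero, sub_zero] at h5
  rw [sub_self] at h3
  have h6 : (2 : K) * h 0 = 0 := by linear_combination -h5
  have h7 : h 0 = 0 := (mul_eq_zero.1 h6).resolve_left two_ne_zero
  rw [h7] at h3
  linear_combination h3

lemma indep_comp {r : ℕ} {P : Fin r → G} (hP : LinearIndependent ℤ P) {f : Fin 4 → Fin r}
    (hf : Function.Injective f) : LinearIndependent ℤ fun i => P (f i) := hP.comp f hf

end abs

variable {p : ℕ} [hp : Fact p.Prime] {A B : ℤ}

theorem kernel_int (hp3 : 3 ≤ p) (hD : 4 * A ^ 3 + 27 * B ^ 2 ≠ 0)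
    {h : (EQ A B).Point → ℚ_[p]} (hh : IsHeight p A B h) {r : ℕ} (hr : 4 ≤ r)
    {P : Fin r → (EQ A B).Point} (hP : LinearIndependent ℤ P) (n : Fin r → ℤ)
    (hn : ∀ i, ∑ j, (h (P i + P j) - h (P i) - h (P j)) * (n j : ℚ_[p]) = 0) : n = 0 := by
  obtain ⟨Q, hQ⟩ : ∃ Q, Q = ∑ j, n j • P j := ⟨_, rfl⟩
  have h1 : ∀ i, h (Q + P i) - h Q - h (P i) = 0 := by
    intro i
    rw [hQ, pr_comb hh.1 n P (P i), ← hn i]
    refine Finset.sum_congr rfl fun j _ => ?_
    rw [add_comm (P j)]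
    ring
  have h2 : h (Q + Q) - h Q - h Q = 0 := by
    have h3 := pr_comb hh.1 n P Q
    rw [← hQ] at h3
    rw [h3]
    refine Finset.sum_eq_zero fun j _ => ?_
    have h4 := h1 j
    rw [add_comm Q] at h4
    have h5 : h (P j + Q) - h (P j) - h Q = 0 := by linear_combination h4
    rw [h5, mul_zero]
  rw [two_self hh.1] at h2
  have h3 : h Q = 0 := (mul_eq_zero.1 h2).resolve_left two_ne_zero
  have h4 := isotropic hp3 hD hh (indep_comp hP (Fin.castLE_injective hr)) h3
    (fun j => by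
      have := h1 (Fin.castLE hr j)
      linear_combination this)
  obtain ⟨m, hm, h5⟩ := isOfFinAddOrder_iff_nsmul_eq_zero.1 h4
  have h6 : ∑ j, (m * n j) • P j = 0 := by
    rw [← h5, hQ, Finset.smul_sum]
    refine Finset.sum_congr rfl fun j _ => ?_
    rw [mul_smul, natCast_zsmul]
  funext j
  have h7 := Fintype.linearIndependent_iff.1 hP _ h6 j
  exact (mul_eq_zero.1 h7).resolve_left (by exact_mod_cast hm.ne')

theorem kernel_rat (hp3 : 3 ≤ p) (hD : 4 * A ^ 3 + 27 * B ^ 2 ≠ 0)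
    {h : (EQ A B).Point → ℚ_[p]} (hh : IsHeight p A B h) {r : ℕ} (hr : 4 ≤ r)
    {P : Fin r → (EQ A B).Point} (hP : LinearIndependent ℤ P) (c : Fin r → ℚ)
    (hc : (Matrix.of fun i j => h (P i + P j) - h (P i) - h (P j)).mulVec
      (fun j => (c j : ℚ_[p])) = 0) : c = 0 := by
  obtain ⟨N, hN, hNc⟩ : ∃ N : ℕ, 0 < N ∧ ∀ j, ∃ n : ℤ, (n : ℚ) = N * c j := by
    refine ⟨∏ j, (c j).den, Finset.prod_pos fun j _ => (c j).den_pos, fun j => ?_⟩
    refine ⟨(∏ k ∈ Finset.univ.erase j, ((c k).den : ℤ)) * (c j).num, ?_⟩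
    rw [← Finset.prod_erase_mul Finset.univ _ (Finset.mem_univ j)]
    push_cast
    have h1 : ((c j).den : ℚ) * c j = (c j).num := by
      rw [mul_comm]
      exact Rat.mul_den_eq_num (c j)
    rw [mul_assoc, h1]
  choose n hn using hNc
  have h1 : n = 0 := by
    refine kernel_int hp3 hD hh hr hP n fun i => ?_
    have h2 := congrFun hc i
    simp only [Matrix.mulVec, dotProduct, Matrix.of_apply, Pi.zero_apply] at h2
    have h3 : ∀ j, ((n j : ℤ) : ℚ_[p]) = (N : ℚ_[p]) * (c j : ℚ_[p]) := by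
      intro j
      have := congrArg (fun z : ℚ => (z : ℚ_[p])) (hn j)
      push_cast at this
      exact this
    simp only [h3]
    calc _ = (N : ℚ_[p]) * ∑ j, (h (P i + P j) - h (P i) - h (P j)) * (c j : ℚ_[p]) := by
          rw [Finset.mul_sum]
          exact Finset.sum_congr rfl fun j _ => by ring
      _ = 0 := by rw [h2, mul_zero]
  funext j
  have h2 := hn j
  rw [h1, Pi.zero_apply, Int.cast_zero] at h2
  exact (mul_eq_zero.1 h2.symm).resolve_left (by exact_mod_cast hN.ne')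

end Pool.Agent.Helper82.Rad
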