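import Pool.Graph.R_pool_sql_team_seeded_620a6dc7.Helper316_PR.Entry

/-!
# A Schwarz lemma for functions which are polynomials in a parameter modulo powers of `p`
-/

set_option autoImplicit false

namespace Pool.Agent.Helper82.Rad

open WeierstrassCurve Pool.Agent.Y732 Pool.Agent.Helper316_PR Polynomial

variable {p : ℕ} [hp : Fact p.Prime]

/-- nonzero elements divide powers of `p` -/
lemma exists_dvd_pow {a : ℤ_[p]} (ha : a ≠ 0) : ∃ n : ℕ, a ∣ (p : ℤ_[p]) ^ n := by
  refine ⟨a.valuation, ?_⟩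
  have h := PadicInt.unitCoeff_spec ha
  generalize PadicInt.unitCoeff ha = u at h
  refine ⟨(u⁻¹ : ℤ_[p]ˣ), ?_⟩
  have h2 : (u : ℤ_[p]) * ((u⁻¹ : ℤ_[p]ˣ) : ℤ_[p]) = 1 := Units.mul_inv u
  linear_combination (-((u⁻¹ : ℤ_[p]ˣ) : ℤ_[p])) * h - (p : ℤ_[p]) ^ a.valuation * h2

lemma p_ne_zero : (p : ℤ_[p]) ≠ 0 := PadicInt.prime_p.ne_zero

theorem schwarz_poly (Z : Finset ℤ_[p]) (hZ : ∀ z ∈ Z, (p : ℤ_[p]) ∣ z) :
    ∃ K : ℕ, ∀ c : ℤ_[p][X], (∀ z ∈ Z, (p : ℤ_[p]) ^ K ∣ c.eval z) →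
      ∀ t : ℤ_[p], (p : ℤ_[p]) ∣ t → (p : ℤ_[p]) ^ Z.card ∣ c.eval t := by
  classical
  induction Z using Finset.induction_on with
  | empty => exact ⟨0, fun c _ t _ => by simp⟩
  | insert a s ha ih =>
    obtain ⟨K₁, h₁⟩ := ih (fun z hz => hZ z (Finset.mem_insert_of_mem hz))
    have hn : ∀ z : ℤ_[p], ∃ n : ℕ, z ∈ s → (z - a) ∣ (p : ℤ_[p]) ^ n := by
      intro z
      by_cases hz : z ∈ s
      · have hne : z - a ≠ 0 := by
          rw [sub_ne_zero]
          rintro rfl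
          exact ha hz
        obtain ⟨n, hn⟩ := exists_dvd_pow hne
        exact ⟨n, fun _ => hn⟩
      · exact ⟨0, fun h => absurd h hz⟩
    choose n hn using hn
    refine ⟨K₁ + s.sup n + (s.card + 1), fun c hc t ht => ?_⟩
    obtain ⟨c₁, hc₁⟩ : (X - C a) ∣ c - C (c.eval a) := by
      rw [dvd_iff_isRoot]
      simp
    have hev : ∀ x, c.eval x = c.eval a + (x - a) * c₁.eval x := by
      intro x
      have := congrArg (Polynomial.eval x) hc₁
      simp only [eval_sub, eval_C, eval_mul, eval_X] at this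
      linear_combination this
    have hc₁' : ∀ z ∈ s, (p : ℤ_[p]) ^ K₁ ∣ c₁.eval z := by
      intro z hz
      have h2 : (p : ℤ_[p]) ^ (K₁ + s.sup n + (s.card + 1)) ∣ (z - a) * c₁.eval z := by
        have := dvd_sub (hc z (Finset.mem_insert_of_mem hz)) (hc a (Finset.mem_insert_self _ _))
        rwa [hev z, add_sub_cancel_left] at this
      obtain ⟨b, hb⟩ := hn z hz
      have h3 : (p : ℤ_[p]) ^ (K₁ + n z) ∣ (p : ℤ_[p]) ^ (n z) * c₁.eval z := by
        rw [hb]
        have h4 : (p : ℤ_[p]) ^ (K₁ + n z) ∣ (z - a) * c₁.eval z := by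
          refine (pow_dvd_pow _ ?_).trans h2
          have : n z ≤ s.sup n := Finset.le_sup hz
          omega
        obtain ⟨e, he⟩ := h4
        exact ⟨b * e, by linear_combination b * he⟩
      rw [add_comm, pow_add] at h3
      exact (mul_dvd_mul_iff_left (pow_ne_zero _ p_ne_zero)).1 h3
    rw [Finset.card_insert_of_notMem ha, hev t]
    refine dvd_add ?_ ?_
    · exact (pow_dvd_pow _ (by omega)).trans (hc a (Finset.mem_insert_self _ _))
    · rw [pow_succ, mul_comm]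
      exact mul_dvd_mul (dvd_sub ht (hZ a (Finset.mem_insert_self _ _))) (h₁ c₁ hc₁' t ht)

/-- **Schwarz lemma.** -/
theorem schwarz {ι : Type*} {t Φ : ι → ℤ_[p]} (ht : ∀ i, (p : ℤ_[p]) ∣ t i)
    (hinj : Function.Injective t) (hΦ : ∀ K, PM K t Φ) (Z : Finset ι) (hZ : ∀ i ∈ Z, Φ i = 0)
    (i : ι) : (p : ℤ_[p]) ^ Z.card ∣ Φ i := by
  classical
  obtain ⟨K, hK⟩ := schwarz_poly (Z.image t) (by
    intro z hz
    obtain ⟨j, -, rfl⟩ := Finset.mem_image.1 hz
    exact ht j)
  rw [Finset.card_image_of_injective _ hinj] at hK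
  obtain ⟨c, hc⟩ := hΦ (K + Z.card)
  have h1 := hK c (by
    intro z hz
    obtain ⟨j, hj, rfl⟩ := Finset.mem_image.1 hz
    have := hc j
    rw [hZ j hj, zero_sub, dvd_neg] at this
    exact (pow_dvd_pow _ (Nat.le_add_right _ _)).trans this) (t i) (ht i)
  have h2 := (pow_dvd_pow (p : ℤ_[p]) (Nat.le_add_left Z.card K)).trans (hc i)
  have := dvd_add h2 h1
  rwa [sub_add_cancel] at this

variable {A B : ℤ}

/-- `w` is determined by `t` -/
lemma w_unique {a b t w w' : ℤ_[p]} (ht : (p : ℤ_[p]) ∣ t) (hw : (p : ℤ_[p]) ∣ w)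
    (hw' : (p : ℤ_[p]) ∣ w') (e : w = t ^ 3 + a * t * w ^ 2 + b * w ^ 3)
    (e' : w' = t ^ 3 + a * t * w' ^ 2 + b * w' ^ 3) : w = w' := by
  have h1 : (w - w') * (1 - (a * t * (w + w') + b * (w ^ 2 + w * w' + w' ^ 2))) = 0 := by
    linear_combination e - e'
  rcases mul_eq_zero.1 h1 with h | h
  · exact sub_eq_zero.1 h
  · exfalso
    have h2 : (p : ℤ_[p]) ∣ a * t * (w + w') + b * (w ^ 2 + w * w' + w' ^ 2) := by
      refine dvd_add ((ht.mul_left _).mul_right _) (Dvd.dvd.mul_left ?_ _)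
      exact dvd_add (dvd_add (hw.trans (dvd_pow_self _ two_ne_zero)) (hw.mul_right _))
        (hw'.trans (dvd_pow_self _ two_ne_zero))
    have h3 : (1 : ℤ_[p]) = a * t * (w + w') + b * (w ^ 2 + w * w' + w' ^ 2) := by
      linear_combination h
    rw [← h3] at h2
    exact PadicInt.prime_p.not_isUnit (isUnit_of_dvd_one h2)

/-- the parameter `t` determines the point -/
theorem tz_injOn {P Q : (EQ A B).Point} (hP : P ∈ E1 A B p) (hQ : Q ∈ E1 A B p)
    (h : tz p P = tz p Q) : P = Q := by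
  have hw : wz p P = wz p Q := by
    refine w_unique (dvd_tz hP) (dvd_wz hP) (dvd_wz hQ) (wz_eq hP) ?_
    rw [h]
    exact wz_eq hQ
  rcases P with _ | ⟨x, y, hP'⟩
  · rcases Q with _ | ⟨x', y', hQ'⟩
    · rfl
    · exfalso
      have h1 := (dvd_dn_iff hQ').1 ((mem_E1).1 hQ)
      have h2 := coe_wz hQ' h1
      have h3 : wz p (Affine.Point.zero : (EQ A B).Point) = 0 := rfl
      rw [← hw, h3, PadicInt.coe_zero] at h2
      have h4 := y_ne_zero hQ' h1
      have h5 : ((-1 / y' : ℚ)) = 0 := by exact_mod_cast h2.symm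
      have h6 : (-1 / y' : ℚ) ≠ 0 := div_ne_zero (by norm_num) h4
      exact h6 h5
  · rcases Q with _ | ⟨x', y', hQ'⟩
    · exfalso
      have h1 := (dvd_dn_iff hP').1 ((mem_E1).1 hP)
      have h2 := coe_wz hP' h1
      have h3 : wz p (Affine.Point.zero : (EQ A B).Point) = 0 := rfl
      rw [hw, h3, PadicInt.coe_zero] at h2
      have h4 := y_ne_zero hP' h1
      have h5 : ((-1 / y : ℚ)) = 0 := by exact_mod_cast h2.symm
      have h6 : (-1 / y : ℚ) ≠ 0 := div_ne_zero (by norm_num) h4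
      exact h6 h5
    · have g1 := (dvd_dn_iff hP').1 ((mem_E1).1 hP)
      have g2 := (dvd_dn_iff hQ').1 ((mem_E1).1 hQ)
      have y1 := y_ne_zero hP' g1
      have y2 := y_ne_zero hQ' g2
      have w1 := coe_wz hP' g1
      have w2 := coe_wz hQ' g2
      rw [hw, w2] at w1
      have e1 : (-1 / y' : ℚ) = -1 / y := by exact_mod_cast w1
      have e2 : y = y' := by
        rw [div_eq_div_iff y2 y1] at e1
        linarith
      subst e2
      have t1 := coe_tz hP' g1
      have t2 := coe_tz hQ' g2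
      rw [h, t2] at t1
      have e3 : (-x' / y : ℚ) = -x / y := by exact_mod_cast t1
      have e4 : x = x' := by
        rw [div_left_inj' y1] at e3
        linarith
      subst e4
      rfl

end Pool.Agent.Helper82.Rad
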