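import Pool.Agent.Helper82.Rad.Schwarz

/-!
# The numerators and denominators of the rational points in terms of the parameter `t`
-/

set_option autoImplicit false

namespace Pool.Agent.Helper82.Rad

open WeierstrassCurve Pool.Agent.Y732 Pool.Agent.Helper316_PR

variable {p : ℕ} [hp : Fact p.Prime]

lemma ev_add {t : ℤ_[p]} (ht : (p : ℤ_[p]) ∣ t) (f g : PowerSeries ℤ_[p]) :
    ev t (f + g) = ev t f + ev t g := by
  unfold ev
  rw [← (summable_ev ht f).tsum_add (summable_ev ht g)]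
  refine tsum_congr fun n => ?_
  rw [map_add]
  ring

lemma ev_C (t a : ℤ_[p]) : ev t (PowerSeries.C a) = a := by
  unfold ev
  rw [tsum_eq_single 0]
  · simp
  · intro n hn
    rw [PowerSeries.coeff_C, if_neg hn, zero_mul]

lemma ev_one (t : ℤ_[p]) : ev t (1 : PowerSeries ℤ_[p]) = 1 := by
  have := ev_C t 1
  rwa [map_one] at this

lemma ev_pow {t : ℤ_[p]} (ht : (p : ℤ_[p]) ∣ t) (f : PowerSeries ℤ_[p]) (n : ℕ) :
    ev t (f ^ n) = ev t f ^ n := by
  induction n with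
  | zero => rw [pow_zero, pow_zero, ev_one]
  | succ n ih => rw [pow_succ, pow_succ, ev_mul ht, ih]

lemma ev_X {t : ℤ_[p]} (ht : (p : ℤ_[p]) ∣ t) : ev t (PowerSeries.X : PowerSeries ℤ_[p]) = t := by
  have := ev_X_mul ht (1 : PowerSeries ℤ_[p])
  rwa [mul_one, ev_one, mul_one] at this

lemma ev_zero (f : PowerSeries ℤ_[p]) : ev 0 f = PowerSeries.constantCoeff f := by
  unfold ev
  rw [tsum_eq_single 0]
  · rw [pow_zero, mul_one, PowerSeries.coeff_zero_eq_constantCoeff_apply]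
  · intro n hn
    rw [zero_pow hn, mul_zero]

variable {A B : ℤ}

/-- the numerator of the first coordinate, `1` at the origin -/
def nm : (EQ A B).Point → ℤ
  | .zero => 1
  | .some x _ _ => x.num

/-- the values of the expansion `u` -/
lemma ev_u {u g : PowerSeries ℤ_[p]} (hu : IsExp (A : ℤ_[p]) (B : ℤ_[p]) u g) {x y : ℚ}
    (h : (EQ A B).Nonsingular x y) (hP : Affine.Point.some x y h ∈ E1 A B p) {a b : ℤ} {e : ℕ}
    (he : 0 < e) (hx : x = a / (e : ℚ) ^ 2) (hy : y = b / (e : ℚ) ^ 3) (hb : b ≠ 0) :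
    (a : ℤ_[p]) ^ 3 * ev (tz p (Affine.Point.some x y h)) u = (b : ℤ_[p]) ^ 2 := by
  have ht := dvd_tz hP
  have hw := dvd_wz hP
  have hweq := wz_eq hP
  have h1 := (dvd_dn_iff h).1 ((mem_E1).1 hP)
  have ct := coe_tz h h1
  have cw := coe_wz h h1
  have hyne := y_ne_zero h h1
  generalize tz p (Affine.Point.some x y h) = t at *
  generalize wz p (Affine.Point.some x y h) = w at *
  have hκ : ev t u = 1 + A * t ^ 4 * ev t u ^ 2 + B * t ^ 6 * ev t u ^ 3 := by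
    have h2 := congrArg (ev t) hu.1
    rw [ev_add ht, ev_add ht, ev_one, ev_mul ht, ev_mul ht, ev_mul ht, ev_mul ht, ev_C, ev_C,
      ev_pow ht, ev_pow ht, ev_pow ht, ev_pow ht, ev_X ht] at h2
    exact h2
  have hW : t ^ 3 * ev t u = w := by
    refine w_unique (a := (A : ℤ_[p])) (b := (B : ℤ_[p])) ht
      ((ht.trans (dvd_pow_self _ three_ne_zero)).mul_right _) hw ?_ hweq
    linear_combination t ^ 3 * hκ
  have heQ : (e : ℚ) ≠ 0 := by exact_mod_cast he.ne'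
  have hbQ : (b : ℚ) ≠ 0 := by exact_mod_cast hb
  have hbt : (b : ℤ_[p]) * t = -(a * (e : ℤ_[p])) := by
    apply Subtype.coe_injective
    push_cast
    rw [ct]
    have h1 : (b : ℚ) * (-x / y) = -(a * e) := by
      rw [hx, hy]
      field_simp
    exact_mod_cast congrArg (fun z : ℚ => (z : ℚ_[p])) h1
  have hbw : (b : ℤ_[p]) * w = -((e : ℤ_[p]) ^ 3) := by
    apply Subtype.coe_injective
    push_cast
    rw [cw]
    have h1 : (b : ℚ) * (-1 / y) = -((e : ℚ) ^ 3) := by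
      rw [hy]
      field_simp
    exact_mod_cast congrArg (fun z : ℚ => (z : ℚ_[p])) h1
  have he0 : (e : ℤ_[p]) ^ 3 ≠ 0 := pow_ne_zero _ (by exact_mod_cast he.ne')
  apply mul_left_cancel₀ he0
  have e1 : ((b : ℤ_[p]) * t) ^ 3 * ev t u = b ^ 2 * (b * w) := by
    rw [← hW]
    ring
  rw [hbt, hbw] at e1
  linear_combination -e1

/-- the unit part of the value of the sigma function -/
theorem exists_rho' {h : (EQ A B).Point → ℚ_[p]}
    (hh : IsHeight p A B h) : ∃ (σ τ : PowerSeries ℤ_[p]), ∀ P ∈ Gd A B p, ∃ ρ : ℤ_[p], ‖ρ‖ = 1 ∧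
      (dn P : ℤ_[p]) * ρ = ev (tz p P) σ ∧ (nm P : ℤ_[p]) * ρ ^ 2 = ev (tz p P) τ ∧
      h P = plog p ρ := by
  obtain ⟨hq, σ, hσ, hf⟩ := hh
  obtain ⟨s, rfl, ⟨d⟩⟩ := hσ.dat
  have hu0 : PowerSeries.constantCoeff d.u = 1 := by
    have := congrArg PowerSeries.constantCoeff d.exp.1
    simpa using this
  obtain ⟨ui, hui⟩ : ∃ ui : PowerSeries ℤ_[p], ui * d.u = 1 := by
    have : IsUnit d.u := by
      rw [PowerSeries.isUnit_iff_constantCoeff, hu0]
      exact isUnit_one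
    exact this.exists_left_inv
  have hui0 : PowerSeries.constantCoeff ui = 1 := by
    have := congrArg PowerSeries.constantCoeff hui
    rwa [map_mul, hu0, mul_one, map_one] at this
  refine ⟨PowerSeries.X * s, s ^ 2 * ui, fun P hP => ?_⟩
  rcases P with _ | ⟨x, y, hns⟩
  · refine ⟨1, norm_one, ?_, ?_, ?_⟩
    · rw [ev_X_mul (dvd_tz (Gd_le hP))]
      simp [tz, ← Affine.Point.zero_def, dn_zero]
    · have e1 : tz p (Affine.Point.zero : (EQ A B).Point) = 0 := rfl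
      have e2 : nm (Affine.Point.zero : (EQ A B).Point) = 1 := rfl
      rw [e1, e2, ev_zero, map_mul, map_pow, d.s0, hui0]
      simp
    · rw [PadicInt.coe_one, plog_one]
      exact height_zero hq
  · have hmemE : Affine.Point.some x y hns ∈ E1 A B p := Gd_le hP
    obtain ⟨hP1, hP2⟩ := hP
    obtain ⟨a, b, he0, hc, hx, hy, hab, -, hnum⟩ := dn_rep hns
    have hnm : nm (Affine.Point.some x y hns) = a := hnum
    rw [hnm]
    have hkey := fun hb => ev_u (p := p) d.exp hns hmemE he0 hx hy hb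
    have htz := coe_tz hns ((dvd_dn_iff hns).1 hP1)
    have hpt := dvd_tz (P := Affine.Point.some x y hns) hP1
    generalize dn (Affine.Point.some x y hns) = e at hP1 hP2 he0 hc hx hy hab ⊢
    generalize tz p (Affine.Point.some x y hns) = t at htz hpt hkey ⊢
    have heQ : (e : ℚ) ≠ 0 := by exact_mod_cast he0.ne'
    have hpe : (p : ℤ) ∣ (e : ℤ) := by exact_mod_cast hP1
    have hppr := Nat.prime_iff_prime_int.1 hp.out
    have ha : ¬ (p : ℤ) ∣ a := fun h => hppr.not_isUnit (hc.isUnit_of_dvd' h hpe)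
    have hb : ¬ (p : ℤ) ∣ b := by
      intro h
      apply ha
      apply hppr.dvd_of_dvd_pow (n := 3)
      have h4 : a ^ 3 = b * b - (e : ℤ) * (A * a * e ^ 3 + B * e ^ 5) := by
        linear_combination -hab
      rw [h4]
      exact dvd_sub (h.mul_right _) (hpe.mul_right _)
    have hb0 : b ≠ 0 := by
      rintro rfl
      exact hb (dvd_zero _)
    have hkey := hkey hb0
    have haU := not_dvd_unit (p := p) ha
    have hbU := not_dvd_unit (p := p) hb
    have hbQ : (b : ℚ) ≠ 0 := by exact_mod_cast hb0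
    have hbt : (b : ℤ_[p]) * t = -(a * (e : ℤ)) := by
      apply Subtype.coe_injective
      push_cast
      rw [htz]
      have h1 : (b : ℚ) * (-x / y) = -(a * e) := by
        rw [hx, hy]
        field_simp
      exact_mod_cast congrArg (fun z : ℚ => (z : ℚ_[p])) h1
    obtain ⟨r, hr⟩ := hbU.exists_right_inv
    have hbt' : (b : ℤ_[p]) * t = -(a * (e : ℤ_[p])) := by
      rw [hbt, Int.cast_natCast]
    have ht : t = -(a * (e : ℤ_[p])) * r := by
      linear_combination r * hbt' - t * hr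
    have hE := ev_unit hpt d.s0
    have hns' : (EQ A B).Nonsingular ((a : ℚ) / ((e : ℤ) : ℚ) ^ 2) ((b : ℚ) / ((e : ℤ) : ℚ) ^ 3) := by
      have e1 : (a : ℚ) / ((e : ℤ) : ℚ) ^ 2 = x := by rw [hx]; push_cast; rfl
      have e2 : (b : ℚ) / ((e : ℤ) : ℚ) ^ 3 = y := by rw [hy]; push_cast; rfl
      rw [e1, e2]
      exact hns
    have hcond : ∀ ℓ : ℕ, ℓ.Prime → (ℓ : ℤ) ∣ (e : ℤ) ∨
        ¬ ((ℓ : ℤ) ∣ 2 * b ∧ (ℓ : ℤ) ∣ 3 * a ^ 2 + A * (e : ℤ) ^ 4) := by
      intro ℓ hℓ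
      by_cases h1 : (ℓ : ℤ) ∣ 2 * (4 * A ^ 3 + 27 * B ^ 2)
      · exact Or.inl (by exact_mod_cast hP2 ℓ hℓ h1)
      · by_cases h0 : (ℓ : ℤ) ∣ (e : ℤ)
        · exact Or.inl h0
        refine Or.inr ?_
        rintro ⟨h2, h3⟩
        have hpr := Nat.prime_iff_prime_int.1 hℓ
        have h4 : (ℓ : ℤ) ∣ (4 * A ^ 3 + 27 * B ^ 2) * (e : ℤ) ^ 12 := by
          have hid : (4 * A ^ 3 + 27 * B ^ 2) * (e : ℤ) ^ 12 =
              (3 * a ^ 2 + A * (e : ℤ) ^ 4) * ((3 * a ^ 2 + 4 * A * e ^ 4) *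
                (3 * a ^ 2 + A * (e : ℤ) ^ 4)) - b * (27 * (a ^ 3 + A * a * e ^ 4 - B * e ^ 6) * b) := by
            linear_combination (27 * (a ^ 3 + A * a * (e : ℤ) ^ 4 - B * e ^ 6)) * hab
          rw [hid]
          refine dvd_sub (h3.mul_right _) (Dvd.dvd.mul_right ?_ _)
          rcases hpr.dvd_or_dvd h2 with h5 | h5
          · exact absurd (h5.mul_right _) h1
          · exact h5
        rcases hpr.dvd_or_dvd h4 with h5 | h5
        · exact h1 (h5.mul_left _)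
        · exact h0 (hpr.dvd_of_dvd_pow h5)
    have h1 := hf a b e hns' t (by exact_mod_cast he0.ne') hc hpe hcond hbt
    have hPe : (Affine.Point.some _ _ hns' : (EQ A B).Point) = Affine.Point.some x y hns := by
      congr 1
      · rw [hx]; push_cast; rfl
      · rw [hy]; push_cast; rfl
    rw [hPe] at h1
    obtain ⟨z, hz⟩ : ∃ z : ℤ_[p], z = -(a * r) * ev t s := ⟨_, rfl⟩
    have hzU : IsUnit z := by
      rw [hz]
      exact ((haU.mul (IsUnit.of_mul_eq_one b (by rw [mul_comm]; exact hr))).neg).mul hE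
    refine ⟨z, PadicInt.isUnit_iff.1 hzU, ?_, ?_, ?_⟩
    · have h8 : (e : ℤ_[p]) * z = t * ev t s := by
        rw [hz]
        linear_combination (-(ev t s)) * ht
      rw [ev_X_mul hpt, h8]
    · have e1 : ev t (s ^ 2 * ui) * ev t d.u = ev t s ^ 2 := by
        rw [← ev_mul hpt, mul_assoc, hui, mul_one, ev_pow hpt]
      have e2 : (a : ℤ_[p]) ^ 3 * r ^ 2 * ev t d.u = 1 := by
        linear_combination r ^ 2 * hkey + (b * r + 1) * hr
      rw [hz]
      linear_combination (a ^ 3 * r ^ 2 : ℤ_[p]) * (-e1) + ev t (s ^ 2 * ui) * e2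
    · rw [h1]
      congr 1
      have heQ : ((e : ℤ) : ℚ_[p]) ≠ 0 := by exact_mod_cast he0.ne'
      have h8 : t * ev t s = z * (e : ℤ_[p]) := by
        rw [hz]
        linear_combination (ev t s) * ht
      rw [div_eq_iff heQ, ev_X_mul hpt, h8]
      push_cast
      ring

/-- The units; the exponent of the denominators is `4 (p - 1)`, the exponent of the numerators is
`2 (p - 1)`. -/
theorem exists_units' {h : (EQ A B).Point → ℚ_[p]}
    (hh : IsHeight p A B h) : ∃ (σ τ : PowerSeries ℤ_[p]) (u v : (EQ A B).Point → ℤ_[p]),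
      ∀ P ∈ Gd A B p, (p : ℤ_[p]) ∣ u P - 1 ∧ u P * v P = 1 ∧
        (dn P : ℤ_[p]) ^ (4 * (p - 1)) * u P = ev (tz p P) σ ^ (4 * (p - 1)) ∧
        (nm P : ℤ_[p]) ^ (2 * (p - 1)) * u P = ev (tz p P) τ ^ (2 * (p - 1)) ∧
        plog p (u P) = ((4 * (p - 1) : ℕ) : ℚ_[p]) * h P := by
  classical
  obtain ⟨σ, τ, hσ⟩ := exists_rho' hh
  have key : ∀ P : (EQ A B).Point, ∃ u v : ℤ_[p], P ∈ Gd A B p →
      (p : ℤ_[p]) ∣ u - 1 ∧ u * v = 1 ∧
        (dn P : ℤ_[p]) ^ (4 * (p - 1)) * u = ev (tz p P) σ ^ (4 * (p - 1)) ∧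
        (nm P : ℤ_[p]) ^ (2 * (p - 1)) * u = ev (tz p P) τ ^ (2 * (p - 1)) ∧
        plog p u = ((4 * (p - 1) : ℕ) : ℚ_[p]) * h P := by
    intro P
    by_cases hP : P ∈ Gd A B p
    · obtain ⟨ρ, h1, h2, h2', h3⟩ := hσ P hP
      have h4 := dvd_pow_sub_one h1
      obtain ⟨v, hv⟩ := exists_inv h4
      have h6 : plog p (ρ ^ (4 * (p - 1)) : ℤ_[p]) = ((4 * (p - 1) : ℕ) : ℚ_[p]) * h P := by
        rw [PadicInt.coe_pow, plog_pow h1, h3]
      refine ⟨ρ ^ (4 * (p - 1)), v, fun _ => ⟨h4, hv, ?_, ?_, h6⟩⟩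
      · rw [← mul_pow, h2]
      · have e : 4 * (p - 1) = 2 * (2 * (p - 1)) := by ring
        rw [e, pow_mul ρ, ← mul_pow, h2']
    · exact ⟨1, 1, fun h => absurd h hP⟩
  choose u v huv using key
  exact ⟨σ, τ, u, v, fun P hP => huv P hP⟩

/-- the units of orthogonal points -/
lemma unit_mul (hp3 : 3 ≤ p) {h : (EQ A B).Point → ℚ_[p]} {u v : (EQ A B).Point → ℤ_[p]}
    (hu : ∀ P ∈ Gd A B p, (p : ℤ_[p]) ∣ u P - 1 ∧ u P * v P = 1 ∧
        plog p (u P) = ((4 * (p - 1) : ℕ) : ℚ_[p]) * h P) {X Y : (EQ A B).Point}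
    (hX : X ∈ Gd A B p) (hY : Y ∈ Gd A B p) (hXY : h (X + Y) = h X + h Y) :
    u (X + Y) = u X * u Y := by
  obtain ⟨a1, b1, l1⟩ := hu X hX
  obtain ⟨a2, b2, l2⟩ := hu Y hY
  obtain ⟨a3, b3, l3⟩ := hu (X + Y) ((Gd A B p).add_mem hX hY)
  have n1 : ‖(u X : ℚ_[p])‖ = 1 := norm_eq_one_of_dvd a1
  have n2 : ‖(u Y : ℚ_[p])‖ = 1 := norm_eq_one_of_dvd a2
  have n3 : ‖(u (X + Y) : ℚ_[p])‖ = 1 := norm_eq_one_of_dvd a3
  have h1 : (p : ℤ_[p]) ∣ u (X + Y) - u X * u Y := by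
    have e : u (X + Y) - u X * u Y = (u (X + Y) - 1) - ((u X - 1) * u Y + (u Y - 1)) := by ring
    rw [e]
    exact dvd_sub a3 (dvd_add (a1.mul_right _) a2)
  have h2 : ‖((u (X + Y) : ℚ_[p])) - (((u X * u Y : ℤ_[p])) : ℚ_[p])‖ ≤ (p : ℝ)⁻¹ := by
    rw [← PadicInt.coe_sub]
    exact norm_le_of_dvd h1
  have n4 : ‖(((u X * u Y : ℤ_[p])) : ℚ_[p])‖ = 1 := by
    rw [PadicInt.coe_mul, norm_mul, n1, n2, one_mul]
  have h3 := norm_plog_sub hp3 n3 n4 h2
  rw [l3, PadicInt.coe_mul, plog_mul n1 n2, l1, l2, hXY, ← mul_add, sub_self, norm_zero] at h3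
  have h4 := norm_eq_zero.1 h3.symm
  rw [sub_eq_zero] at h4
  apply Subtype.coe_injective
  push_cast
  exact h4

end Pool.Agent.Helper82.Rad
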